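import Mathlib

set_option autoImplicit false

/-!
# The cut-off functions `(R² - ‖ξ‖²)₊ ^ p`

We compute the ratio of the integrals of the squares of the gradient and of the function.
-/

namespace Pool.Agent.H29.SpecVar

open MeasureTheory Set

/-- The function `y₊ ^ p`. -/
noncomputable def bump (p y : ℝ) : ℝ := (max y 0) ^ p

lemma bump_of_nonpos {p y : ℝ} (hp : p ≠ 0) (hy : y ≤ 0) : bump p y = 0 := by
  rw [bump, max_eq_right hy, Real.zero_rpow hp]

lemma bump_of_nonneg {p y : ℝ} (hy : 0 ≤ y) : bump p y = y ^ p := by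
  rw [bump, max_eq_left hy]

lemma bump_nonneg (p y : ℝ) : 0 ≤ bump p y := Real.rpow_nonneg (le_max_right _ _) _

lemma bump_pos {p y : ℝ} (hy : 0 < y) : 0 < bump p y := by
  rw [bump_of_nonneg hy.le]; exact Real.rpow_pos_of_pos hy p

lemma continuous_bump {p : ℝ} (hp : 0 ≤ p) : Continuous (bump p) := by
  unfold bump
  exact (continuous_id.max continuous_const).rpow_const fun _ => Or.inr hp

lemma bump_mul {q : ℝ} (hq : 0 < q) (y : ℝ) : bump q y * y = bump (q + 1) y := by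
  rcases le_or_gt y 0 with h | h
  · rw [bump_of_nonpos hq.ne' h, bump_of_nonpos (by linarith : q + 1 ≠ 0) h, zero_mul]
  · rw [bump_of_nonneg h.le, bump_of_nonneg h.le, Real.rpow_add_one h.ne']

lemma bump_sq (p y : ℝ) : bump p y ^ 2 = bump (2 * p) y := by
  unfold bump
  rw [← Real.rpow_natCast, ← Real.rpow_mul (le_max_right _ _)]
  congr 1
  push_cast
  ring

lemma hasDerivAt_bump {p : ℝ} (hp : 1 < p) (y : ℝ) :
    HasDerivAt (bump p) (p * bump (p - 1) y) y := by
  have hp0 : p ≠ 0 := by linarith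
  have hp1 : p - 1 ≠ 0 := by linarith
  rcases lt_trichotomy y 0 with h | h | h
  · rw [bump_of_nonpos hp1 h.le, mul_zero]
    apply (hasDerivAt_const y (0 : ℝ)).congr_of_eventuallyEq
    filter_upwards [Iio_mem_nhds h] with z hz
    exact bump_of_nonpos hp0 (le_of_lt hz)
  · subst h
    rw [bump_of_nonpos hp1 le_rfl, mul_zero]
    have h1 : HasDerivWithinAt (bump p) 0 (Iic 0) 0 := by
      apply (hasDerivWithinAt_const (0 : ℝ) (Iic 0) (0 : ℝ)).congr
      · intro z hz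
        exact bump_of_nonpos hp0 hz
      · exact bump_of_nonpos hp0 le_rfl
    have h2 : HasDerivWithinAt (bump p) 0 (Ici 0) 0 := by
      have h3 := (Real.hasDerivAt_rpow_const (x := 0) (p := p) (Or.inr hp.le)).hasDerivWithinAt
        (s := Ici 0)
      rw [Real.zero_rpow hp1, mul_zero] at h3
      apply h3.congr
      · intro z hz
        exact bump_of_nonneg hz
      · exact bump_of_nonneg le_rfl
    have h3 := h1.union h2
    rw [Iic_union_Ici, hasDerivWithinAt_univ] at h3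
    exact h3
  · rw [bump_of_nonneg h.le]
    apply (Real.hasDerivAt_rpow_const (x := y) (p := p) (Or.inl h.ne')).congr_of_eventuallyEq
    filter_upwards [Ioi_mem_nhds h] with z hz
    exact bump_of_nonneg (le_of_lt hz)

/-- The radial integral. -/
noncomputable def radInt (K : ℕ) (R q : ℝ) : ℝ :=
  ∫ y in (0 : ℝ)..R, y ^ (K - 1) * bump q (R ^ 2 - y ^ 2)

lemma radInt_rec {K : ℕ} (hK : 1 ≤ K) {R q : ℝ} (hq : 0 < q) :
    (K + 2 * (q + 1)) * radInt K R (q + 1) = 2 * (q + 1) * R ^ 2 * radInt K R q := by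
  have hc : ∀ r : ℝ, 0 ≤ r → Continuous fun y : ℝ => bump r (R ^ 2 - y ^ 2) := fun r hr =>
    (continuous_bump hr).comp (by fun_prop)
  have hder : ∀ y : ℝ, HasDerivAt (fun y : ℝ => y ^ K * bump (q + 1) (R ^ 2 - y ^ 2))
      ((K + 2 * (q + 1)) * (y ^ (K - 1) * bump (q + 1) (R ^ 2 - y ^ 2)) -
        2 * (q + 1) * R ^ 2 * (y ^ (K - 1) * bump q (R ^ 2 - y ^ 2))) y := by
    intro y
    have h1 : HasDerivAt (fun y : ℝ => R ^ 2 - y ^ 2) (-(2 * y)) y := by
      have := (hasDerivAt_pow 2 y).const_sub (R ^ 2)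
      simpa using this
    have h2 := (hasDerivAt_bump (p := q + 1) (by linarith) (R ^ 2 - y ^ 2)).comp y h1
    have h3 := (hasDerivAt_pow K y).mul h2
    refine h3.congr_deriv ?_
    have e1 : q + 1 - 1 = q := by ring
    rw [e1, ← bump_mul hq (R ^ 2 - y ^ 2)]
    have e2 : y ^ K = y ^ (K - 1) * y := by
      rw [← pow_succ]; congr 1; omega
    simp only [Function.comp]
    rw [e2, ← bump_mul hq (R ^ 2 - y ^ 2)]
    ring
  have hcont1 : Continuous fun y : ℝ => y ^ (K - 1) * bump (q + 1) (R ^ 2 - y ^ 2) :=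
    (continuous_pow _).mul (hc _ (by linarith))
  have hcont2 : Continuous fun y : ℝ => y ^ (K - 1) * bump q (R ^ 2 - y ^ 2) :=
    (continuous_pow _).mul (hc _ hq.le)
  have hi1 := (hcont1.const_mul (K + 2 * (q + 1) : ℝ)).intervalIntegrable (μ := volume) 0 R
  have hi2 := (hcont2.const_mul (2 * (q + 1) * R ^ 2)).intervalIntegrable (μ := volume) 0 R
  have hint := intervalIntegral.integral_eq_sub_of_hasDerivAt (a := 0) (b := R)
    (fun y _ => hder y) (hi1.sub hi2)
  rw [intervalIntegral.integral_sub hi1 hi2, intervalIntegral.integral_const_mul,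
    intervalIntegral.integral_const_mul] at hint
  have e0 : (R : ℝ) ^ K * bump (q + 1) (R ^ 2 - R ^ 2) - 0 ^ K * bump (q + 1) (R ^ 2 - 0 ^ 2) =
      0 := by
    rw [sub_self, bump_of_nonpos (by linarith) le_rfl, zero_pow (by omega : K ≠ 0)]
    ring
  rw [e0] at hint
  unfold radInt
  linarith

lemma radInt_pos {K : ℕ} {R q : ℝ} (hR : 0 < R) (hq : 0 < q) : 0 < radInt K R q := by
  unfold radInt
  apply intervalIntegral.intervalIntegral_pos_of_pos_on _ _ hR
  · apply Continuous.intervalIntegrable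
    exact (continuous_pow _).mul ((continuous_bump hq.le).comp (by fun_prop))
  · intro y hy
    apply mul_pos (pow_pos hy.1 _)
    apply bump_pos
    nlinarith [hy.1, hy.2]

lemma integral_bump {K : ℕ} (hK : 1 ≤ K) {R q : ℝ} (hR : 0 < R) (hq : 0 < q) :
    ∫ ξ : EuclideanSpace ℝ (Fin K), bump q (R ^ 2 - ‖ξ‖ ^ 2) =
      (K * (volume : Measure (EuclideanSpace ℝ (Fin K))).real (Metric.ball 0 1)) *
        radInt K R q := by
  have : Nonempty (Fin K) := ⟨⟨0, by omega⟩⟩
  have h := integral_fun_norm_addHaar (volume : Measure (EuclideanSpace ℝ (Fin K)))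
    (fun y => bump q (R ^ 2 - y ^ 2))
  rw [h, finrank_euclideanSpace_fin]
  have e : ∫ y in Ioi (0 : ℝ), y ^ (K - 1) • bump q (R ^ 2 - y ^ 2) = radInt K R q := by
    unfold radInt
    rw [intervalIntegral.integral_of_le hR.le]
    apply setIntegral_eq_of_subset_of_forall_sdiff_eq_zero measurableSet_Ioi
      (fun y (hy : y ∈ Ioc 0 R) => hy.1)
    intro y hy
    have h1 : R < y := by
      have h2 := hy.2
      simp only [mem_Ioc, not_and, not_le] at h2
      exact h2 hy.1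
    rw [bump_of_nonpos hq.ne' (by nlinarith), smul_zero]
  rw [e, nsmul_eq_mul, smul_eq_mul]
  ring

lemma volume_ball_pos {K : ℕ} :
    0 < (volume : Measure (EuclideanSpace ℝ (Fin K))).real (Metric.ball 0 1) := by
  rw [Measure.real, ENNReal.toReal_pos_iff]
  exact ⟨Metric.measure_ball_pos _ _ one_pos, measure_ball_lt_top⟩

/-- The cut-off function. -/
noncomputable def cut (K : ℕ) (R p : ℝ) (ξ : EuclideanSpace ℝ (Fin K)) : ℝ :=
  bump p (R ^ 2 - ‖ξ‖ ^ 2)

/-- Its gradient. -/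
noncomputable def cutD (K : ℕ) (R p : ℝ) (ξ : EuclideanSpace ℝ (Fin K)) :
    EuclideanSpace ℝ (Fin K) :=
  (-(2 * p) * bump (p - 1) (R ^ 2 - ‖ξ‖ ^ 2)) • ξ

variable {K : ℕ} {R p : ℝ}

lemma hasGradientAt_cut (hp : 1 < p) (ξ : EuclideanSpace ℝ (Fin K)) :
    HasGradientAt (cut K R p) (cutD K R p ξ) ξ := by
  rw [hasGradientAt_iff_hasFDerivAt]
  have h1 : HasFDerivAt (fun ξ : EuclideanSpace ℝ (Fin K) => R ^ 2 - ‖ξ‖ ^ 2)
      (-(2 • (innerSL ℝ ξ))) ξ :=
    (hasStrictFDerivAt_norm_sq ξ).hasFDerivAt.const_sub (R ^ 2)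
  have h2 := (hasDerivAt_bump hp (R ^ 2 - ‖ξ‖ ^ 2)).comp_hasFDerivAt ξ h1
  refine h2.congr_fderiv ?_
  ext v
  simp [cutD]
  ring

lemma continuous_cutD (hp : 1 < p) : Continuous (cutD K R p) := by
  have h1 : Continuous fun ξ : EuclideanSpace ℝ (Fin K) =>
      -(2 * p) * bump (p - 1) (R ^ 2 - ‖ξ‖ ^ 2) :=
    continuous_const.mul ((continuous_bump (by linarith)).comp (by fun_prop))
  exact h1.smul continuous_id

lemma cut_eq_zero (hR : 0 < R) (hp : 1 < p) (ξ : EuclideanSpace ℝ (Fin K)) (h : R ≤ ‖ξ‖) :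
    cut K R p ξ = 0 := by
  apply bump_of_nonpos (by linarith)
  nlinarith

lemma cutD_eq_zero (hR : 0 < R) (hp : 1 < p) (ξ : EuclideanSpace ℝ (Fin K)) (h : R ≤ ‖ξ‖) :
    cutD K R p ξ = 0 := by
  rw [cutD, bump_of_nonpos (by linarith) (by nlinarith), mul_zero, zero_smul]

lemma integral_cut (hK : 1 ≤ K) (hR : 0 < R) (hp : 1 < p) :
    ∫ ξ, cut K R p ξ ^ 2 =
      (K * (volume : Measure (EuclideanSpace ℝ (Fin K))).real (Metric.ball 0 1)) *
        radInt K R (2 * p) := by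
  simp only [cut, bump_sq]
  exact integral_bump hK hR (by linarith)

lemma integrable_bump (hR : 0 < R) {q : ℝ} (hq : 0 < q) :
    Integrable fun ξ : EuclideanSpace ℝ (Fin K) => bump q (R ^ 2 - ‖ξ‖ ^ 2) := by
  apply Continuous.integrable_of_hasCompactSupport
  · exact (continuous_bump hq.le).comp (by fun_prop)
  · apply HasCompactSupport.intro (isCompact_closedBall (0 : EuclideanSpace ℝ (Fin K)) R)
    intro ξ hξ
    have h : R < ‖ξ‖ := by simpa [dist_zero_right] using hξ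
    exact bump_of_nonpos hq.ne' (by nlinarith)

lemma integral_cutD (hK : 1 ≤ K) (hR : 0 < R) (hp : 1 < p) :
    ∫ ξ, ‖cutD K R p ξ‖ ^ 2 =
      (K * (volume : Measure (EuclideanSpace ℝ (Fin K))).real (Metric.ball 0 1)) *
        (4 * p ^ 2 * (R ^ 2 * radInt K R (2 * p - 2) - radInt K R (2 * p - 1))) := by
  have e : ∀ ξ : EuclideanSpace ℝ (Fin K), ‖cutD K R p ξ‖ ^ 2 =
      4 * p ^ 2 * R ^ 2 * bump (2 * p - 2) (R ^ 2 - ‖ξ‖ ^ 2) -
        4 * p ^ 2 * bump (2 * p - 1) (R ^ 2 - ‖ξ‖ ^ 2) := by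
    intro ξ
    have h1 := bump_mul (q := 2 * p - 2) (by linarith) (R ^ 2 - ‖ξ‖ ^ 2)
    rw [show 2 * p - 2 + 1 = 2 * p - 1 by ring] at h1
    have h2 := bump_sq (p - 1) (R ^ 2 - ‖ξ‖ ^ 2)
    rw [show 2 * (p - 1) = 2 * p - 2 by ring] at h2
    rw [← h1, cutD, norm_smul, mul_pow, Real.norm_eq_abs, sq_abs, mul_pow, h2]
    ring
  simp only [e]
  rw [integral_sub, integral_const_mul, integral_const_mul, integral_bump hK hR (by linarith),
    integral_bump hK hR (by linarith)]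
  · ring
  · exact (integrable_bump hR (by linarith)).const_mul _
  · exact (integrable_bump hR (by linarith)).const_mul _

lemma integral_cut_pos (hK : 1 ≤ K) (hR : 0 < R) (hp : 1 < p) : 0 < ∫ ξ, cut K R p ξ ^ 2 := by
  rw [integral_cut hK hR hp]
  have h1 : 0 < (K : ℝ) := by exact_mod_cast hK
  exact mul_pos (mul_pos h1 volume_ball_pos) (radInt_pos hR (by linarith))

/-- The ratio of the two integrals. -/
theorem integral_ratio (hK : 1 ≤ K) (hR : 0 < R) (hp : 1 < p) :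
    ∫ ξ, ‖cutD K R p ξ‖ ^ 2 =
      (p * K * (K + 4 * p) / (2 * (2 * p - 1) * R ^ 2)) * ∫ ξ, cut K R p ξ ^ 2 := by
  rw [integral_cut hK hR hp, integral_cutD hK hR hp]
  have h1 := radInt_rec hK (R := R) (q := 2 * p - 1) (by linarith)
  have h2 := radInt_rec hK (R := R) (q := 2 * p - 2) (by linarith)
  rw [show 2 * p - 1 + 1 = 2 * p by ring] at h1
  rw [show 2 * p - 2 + 1 = 2 * p - 1 by ring] at h2
  have hK0 : 0 < (K : ℝ) := by exact_mod_cast hK
  have hp1 : 0 < 2 * p - 1 := by linarith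
  have h3 : radInt K R (2 * p) = 2 * (2 * p) * R ^ 2 * radInt K R (2 * p - 1) / (K + 2 * (2 * p)) := by
    rw [eq_div_iff (by positivity), ← h1]; ring
  have h4 : R ^ 2 * radInt K R (2 * p - 2) =
      (K + 2 * (2 * p - 1)) * radInt K R (2 * p - 1) / (2 * (2 * p - 1)) := by
    rw [eq_div_iff (by positivity), h2]; ring
  rw [h3, h4]
  generalize radInt K R (2 * p - 1) = J
  generalize (volume : Measure (EuclideanSpace ℝ (Fin K))).real (Metric.ball 0 1) = v
  have hR0 : R ≠ 0 := hR.ne'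
  have h6 : (K : ℝ) + 2 * (2 * p) ≠ 0 := by positivity
  obtain ⟨r, hr⟩ : ∃ r, 2 * p - 1 = r := ⟨_, rfl⟩
  have hr0 : r ≠ 0 := by rw [← hr]; exact hp1.ne'
  have hp2 : p = (r + 1) / 2 := by linarith
  rw [hr]
  have e1 : (K : ℝ) + 2 * (2 * p) = K + 2 * (r + 1) := by rw [hp2]; ring
  rw [e1] at h6 ⊢
  have e2 : (K : ℝ) + 4 * p = K + 2 * (r + 1) := by rw [hp2]; ring
  rw [e2, hp2]
  obtain ⟨s, hs⟩ : ∃ s : ℝ, (K : ℝ) + 2 * (r + 1) = s := ⟨_, rfl⟩
  rw [hs] at h6 ⊢
  field_simp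
  ring

end Pool.Agent.H29.SpecVar
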