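import Mathlib

set_option autoImplicit false

/-!
# Paths on a sphere

A path on a sphere of radius `r` which is Lipschitz with constant `L` on `[0, 1]` joins points
whose angle is at most `L / r`.
-/

namespace Pool.Agent.H29.SpecVar

open InnerProductGeometry Filter Topology

variable {E : Type*} [NormedAddCommGroup E] [InnerProductSpace ℝ E]

/-- The angle of two vectors of norm `r` at distance at most `r h`. -/
lemma angle_le_two_arcsin {x y : E} {r h : ℝ} (hr : 0 < r) (hx : ‖x‖ = r) (hy : ‖y‖ = r)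
    (hh : ‖y - x‖ ≤ r * h) : angle x y ≤ 2 * Real.arcsin (h / 2) := by
  have h0 : 0 ≤ angle x y := angle_nonneg x y
  have hpi : angle x y ≤ Real.pi := angle_le_pi x y
  have hcos : Real.cos (angle x y) = inner ℝ x y / (r * r) := by
    rw [cos_angle, hx, hy]
  have hns : ‖y - x‖ ^ 2 = 2 * r ^ 2 - 2 * inner ℝ x y := by
    rw [norm_sub_sq_real, hx, hy, real_inner_comm]; ring
  have hs : Real.sin (angle x y / 2) ^ 2 = (‖y - x‖ / (2 * r)) ^ 2 := by
    have e1 : Real.cos (angle x y) = 1 - 2 * Real.sin (angle x y / 2) ^ 2 := by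
      have := Real.cos_two_mul (angle x y / 2)
      rw [show 2 * (angle x y / 2) = angle x y by ring] at this
      rw [this, Real.cos_sq']; ring
    rw [hcos] at e1
    have e2 : inner ℝ x y = (2 * r ^ 2 - ‖y - x‖ ^ 2) / 2 := by linarith
    rw [e2] at e1
    have hr' : r ≠ 0 := hr.ne'
    field_simp at e1 ⊢
    nlinarith
  have hsn : 0 ≤ Real.sin (angle x y / 2) :=
    Real.sin_nonneg_of_nonneg_of_le_pi (by linarith) (by linarith)
  have hs' : Real.sin (angle x y / 2) = ‖y - x‖ / (2 * r) := by
    have h1 : 0 ≤ ‖y - x‖ / (2 * r) := by positivity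
    exact (pow_left_inj₀ hsn h1 two_ne_zero).mp hs
  have hle : Real.sin (angle x y / 2) ≤ h / 2 := by
    rw [hs', div_le_div_iff₀ (by positivity) (by positivity)]
    nlinarith
  have h3 : angle x y / 2 = Real.arcsin (Real.sin (angle x y / 2)) := by
    rw [Real.arcsin_sin] <;> linarith [Real.pi_pos]
  have h4 : Real.arcsin (Real.sin (angle x y / 2)) ≤ Real.arcsin (h / 2) :=
    Real.monotone_arcsin hle
  linarith

/-- A Lipschitz path on a sphere: the angle of the end points is at most the length. -/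
theorem angle_path_le (G : ℝ → E) {r L : ℝ} (hr : 0 < r)
    (hG : ∀ t ∈ Set.Icc (0 : ℝ) 1, ‖G t‖ = r)
    (hlip : ∀ s ∈ Set.Icc (0 : ℝ) 1, ∀ t ∈ Set.Icc (0 : ℝ) 1, s ≤ t →
      ‖G t - G s‖ ≤ L * (t - s)) :
    angle (G 0) (G 1) ≤ L / r := by
  have key : ∀ N : ℕ, 0 < N →
      angle (G 0) (G 1) ≤ N * (2 * Real.arcsin ((L / r / N) / 2)) := by
    intro N hN
    have hN' : (0 : ℝ) < N := by exact_mod_cast hN
    have step : ∀ k : ℕ, k ≤ N →
        angle (G 0) (G (k / N)) ≤ k * (2 * Real.arcsin ((L / r / N) / 2)) := by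
      intro k
      induction k with
      | zero =>
        intro _
        have h0 : G 0 ≠ 0 := by
          intro h
          have := hG 0 (by simp)
          rw [h, norm_zero] at this
          exact hr.ne this
        simp [angle_self h0]
      | succ k ih =>
        intro hk
        have hk' : k ≤ N := by omega
        have hkN : (k : ℝ) / N ∈ Set.Icc (0 : ℝ) 1 :=
          ⟨by positivity, by rw [div_le_one hN']; exact_mod_cast hk'⟩
        have hkN1 : ((k + 1 : ℕ) : ℝ) / N ∈ Set.Icc (0 : ℝ) 1 :=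
          ⟨by positivity, by rw [div_le_one hN']; exact_mod_cast hk⟩
        have h1 := ih hk'
        have h2 : angle (G (k / N)) (G ((k + 1 : ℕ) / N)) ≤
            2 * Real.arcsin ((L / r / N) / 2) := by
          apply angle_le_two_arcsin hr (hG _ hkN) (hG _ hkN1)
          have h3 := hlip _ hkN _ hkN1 (by gcongr; simp)
          refine h3.trans (le_of_eq ?_)
          push_cast
          field_simp
          ring
        calc angle (G 0) (G ((k + 1 : ℕ) / N))
            ≤ angle (G 0) (G (k / N)) + angle (G (k / N)) (G ((k + 1 : ℕ) / N)) :=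
              angle_le_angle_add_angle _ _ _
          _ ≤ k * (2 * Real.arcsin ((L / r / N) / 2)) +
              2 * Real.arcsin ((L / r / N) / 2) := add_le_add h1 h2
          _ = ((k + 1 : ℕ) : ℝ) * (2 * Real.arcsin ((L / r / N) / 2)) := by
              push_cast; ring
    have := step N le_rfl
    rwa [div_self hN'.ne'] at this
  -- limit
  have hd : HasDerivAt (fun x : ℝ => 2 * Real.arcsin (x * (L / r) / 2)) (L / r) 0 := by
    have h1 : HasDerivAt (fun x : ℝ => x * (L / r) / 2) ((L / r) / 2) 0 := by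
      have := ((hasDerivAt_id (0 : ℝ)).mul_const (L / r)).div_const 2
      simpa using this
    have h2 : HasDerivAt Real.arcsin (1 / Real.sqrt (1 - (0 * (L / r) / 2) ^ 2))
        (0 * (L / r) / 2) := by
      apply Real.hasDerivAt_arcsin <;> norm_num
    have h3 := (h2.comp (0 : ℝ) h1).const_mul 2
    have e : (2 : ℝ) * (1 / Real.sqrt (1 - (0 * (L / r) / 2) ^ 2) * ((L / r) / 2)) = L / r := by
      simp; ring
    rw [e] at h3
    exact h3
  have hlim : Tendsto (fun N : ℕ => (N : ℝ) * (2 * Real.arcsin ((L / r / N) / 2))) atTop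
      (𝓝 (L / r)) := by
    have h1 : Tendsto (fun N : ℕ => ((N : ℝ))⁻¹) atTop (𝓝[≠] 0) := by
      rw [tendsto_nhdsWithin_iff]
      refine ⟨tendsto_inv_atTop_nhds_zero_nat, ?_⟩
      filter_upwards [eventually_gt_atTop 0] with N hN
      simp only [Set.mem_compl_iff, Set.mem_singleton_iff]
      positivity
    have h2 := (hasDerivAt_iff_tendsto_slope.mp hd).comp h1
    refine h2.congr ?_
    intro N
    simp only [Function.comp, slope, vsub_eq_sub, sub_zero, zero_mul, zero_div,
      Real.arcsin_zero, mul_zero, smul_eq_mul, inv_inv]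
    rw [show (N : ℝ)⁻¹ * (L / r) / 2 = L / r / N / 2 by ring]
  apply ge_of_tendsto hlim
  filter_upwards [eventually_gt_atTop 0] with N hN
  exact key N hN

/-- A Lipschitz path on a sphere of radius `r` which joins orthogonal points has Lipschitz
constant at least `(π / 2) r`. -/
theorem pi_div_two_mul_le (G : ℝ → E) {r L : ℝ} (hr : 0 < r)
    (hG : ∀ t ∈ Set.Icc (0 : ℝ) 1, ‖G t‖ = r)
    (hlip : ∀ s ∈ Set.Icc (0 : ℝ) 1, ∀ t ∈ Set.Icc (0 : ℝ) 1, s ≤ t →
      ‖G t - G s‖ ≤ L * (t - s)) (h01 : inner ℝ (G 0) (G 1) = 0) :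
    Real.pi / 2 * r ≤ L := by
  have h := angle_path_le G hr hG hlip
  rw [(inner_eq_zero_iff_angle_eq_pi_div_two _ _).mp h01, le_div_iff₀ hr] at h
  exact h

end Pool.Agent.H29.SpecVar
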