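import Mathlib
import Pool.Agent.H29.SpecVar.Path

set_option autoImplicit false

/-!
# The interpolating vector field

For a function `χ` on `ℝ^K`, points `α i`, `β j` and a matrix `M` we study the path of square
integrable fields `G_t(ξ)_i = ∑ j, χ(ξ - (1 - t) α i - t β j) M i j`.
-/

namespace Pool.Agent.H29.SpecVar

open MeasureTheory Set

variable {K n : ℕ}

/-- The interpolating field. -/
noncomputable def field (χ : EuclideanSpace ℝ (Fin K) → ℝ) (α β : Fin n → EuclideanSpace ℝ (Fin K))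
    (M : Fin n → Fin n → ℂ) (t : ℝ) (ξ : EuclideanSpace ℝ (Fin K)) : EuclideanSpace ℂ (Fin n) :=
  WithLp.toLp 2 fun i => ∑ j, (χ (ξ - (1 - t) • α i - t • β j) : ℂ) * M i j

/-- The time derivative of the interpolating field. -/
noncomputable def fieldD (D : EuclideanSpace ℝ (Fin K) → EuclideanSpace ℝ (Fin K))
    (α β : Fin n → EuclideanSpace ℝ (Fin K))
    (M : Fin n → Fin n → ℂ) (t : ℝ) (ξ : EuclideanSpace ℝ (Fin K)) : EuclideanSpace ℂ (Fin n) :=
  WithLp.toLp 2 fun i =>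
    ∑ j, ((inner ℝ (D (ξ - (1 - t) • α i - t • β j)) (α i - β j) : ℝ) : ℂ) * M i j

lemma lintegral_translate (f : EuclideanSpace ℝ (Fin K) → Fin n → Fin n → ℂ)
    (hf : ∀ i j, Measurable fun ξ => f ξ i j) (α β : Fin n → EuclideanSpace ℝ (Fin K)) (t : ℝ) :
    ∫⁻ ξ, ENNReal.ofReal (∑ i, ‖∑ j, f (ξ - (1 - t) • α i - t • β j) i j‖ ^ 2) =
      ∫⁻ ξ, ENNReal.ofReal (∑ i, ‖∑ j, f (ξ - t • β j) i j‖ ^ 2) := by
  have hm1 : ∀ i : Fin n, Measurable fun ξ : EuclideanSpace ℝ (Fin K) =>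
      ENNReal.ofReal (‖∑ j, f (ξ - t • β j) i j‖ ^ 2) := by
    intro i
    apply Measurable.ennreal_ofReal
    apply Measurable.pow_const
    apply Measurable.norm
    apply Finset.measurable_sum
    intro j _
    exact (hf i j).comp (measurable_id.sub_const _)
  have hm2 : ∀ i : Fin n, Measurable fun ξ : EuclideanSpace ℝ (Fin K) =>
      ENNReal.ofReal (‖∑ j, f (ξ - (1 - t) • α i - t • β j) i j‖ ^ 2) := by
    intro i
    exact (hm1 i).comp (measurable_id.sub_const _)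
  have e1 : ∀ ξ : EuclideanSpace ℝ (Fin K),
      ENNReal.ofReal (∑ i, ‖∑ j, f (ξ - (1 - t) • α i - t • β j) i j‖ ^ 2) =
      ∑ i, ENNReal.ofReal (‖∑ j, f (ξ - (1 - t) • α i - t • β j) i j‖ ^ 2) := fun ξ =>
    ENNReal.ofReal_sum_of_nonneg fun i _ => by positivity
  have e2 : ∀ ξ : EuclideanSpace ℝ (Fin K),
      ENNReal.ofReal (∑ i, ‖∑ j, f (ξ - t • β j) i j‖ ^ 2) =
      ∑ i, ENNReal.ofReal (‖∑ j, f (ξ - t • β j) i j‖ ^ 2) := fun ξ =>
    ENNReal.ofReal_sum_of_nonneg fun i _ => by positivity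
  simp only [e1, e2]
  rw [lintegral_finsetSum _ fun i _ => hm2 i, lintegral_finsetSum _ fun i _ => hm1 i]
  apply Finset.sum_congr rfl
  intro i _
  exact lintegral_sub_right_eq_self
    (fun ξ : EuclideanSpace ℝ (Fin K) => ENNReal.ofReal (‖∑ j, f (ξ - t • β j) i j‖ ^ 2)) _

lemma lintegral_weighted (h : EuclideanSpace ℝ (Fin K) → ℝ) (hh : Measurable h)
    (h0 : ∀ ξ, 0 ≤ h ξ) (β : Fin n → EuclideanSpace ℝ (Fin K)) (t : ℝ) (m : Fin n → ℝ)
    (hm : ∀ j, 0 ≤ m j) :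
    ∫⁻ ξ, ENNReal.ofReal (∑ j, h (ξ - t • β j) * m j) =
      ENNReal.ofReal (∑ j, m j) * ∫⁻ ξ, ENNReal.ofReal (h ξ) := by
  have e1 : ∀ ξ : EuclideanSpace ℝ (Fin K),
      ENNReal.ofReal (∑ j, h (ξ - t • β j) * m j) =
      ∑ j, ENNReal.ofReal (m j) * ENNReal.ofReal (h (ξ - t • β j)) := by
    intro ξ
    rw [ENNReal.ofReal_sum_of_nonneg fun j _ => mul_nonneg (h0 _) (hm j)]
    apply Finset.sum_congr rfl
    intro j _
    rw [mul_comm, ENNReal.ofReal_mul (hm j)]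
  have hmeas : ∀ j : Fin n, Measurable fun ξ : EuclideanSpace ℝ (Fin K) =>
      ENNReal.ofReal (h (ξ - t • β j)) := fun j =>
    (hh.comp (measurable_id.sub_const _)).ennreal_ofReal
  simp only [e1]
  rw [lintegral_finsetSum _ fun j _ => (hmeas j).const_mul _]
  have e2 : ∀ j : Fin n, ∫⁻ ξ : EuclideanSpace ℝ (Fin K),
      ENNReal.ofReal (m j) * ENNReal.ofReal (h (ξ - t • β j)) =
      ENNReal.ofReal (m j) * ∫⁻ ξ, ENNReal.ofReal (h ξ) := by
    intro j
    rw [lintegral_const_mul _ (hmeas j)]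
    congr 1
    exact lintegral_sub_right_eq_self
      (fun ξ : EuclideanSpace ℝ (Fin K) => ENNReal.ofReal (h ξ)) _
  simp only [e2]
  rw [← Finset.sum_mul, ENNReal.ofReal_sum_of_nonneg fun j _ => hm j]

lemma norm_sq_field (χ : EuclideanSpace ℝ (Fin K) → ℝ) (α β : Fin n → EuclideanSpace ℝ (Fin K))
    (M : Fin n → Fin n → ℂ) (t : ℝ) (ξ : EuclideanSpace ℝ (Fin K)) :
    ‖field χ α β M t ξ‖ ^ 2 =
      ∑ i, ‖∑ j, (χ (ξ - (1 - t) • α i - t • β j) : ℂ) * M i j‖ ^ 2 := by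
  rw [EuclideanSpace.norm_sq_eq]
  rfl

lemma norm_sq_fieldD (D : EuclideanSpace ℝ (Fin K) → EuclideanSpace ℝ (Fin K))
    (α β : Fin n → EuclideanSpace ℝ (Fin K))
    (M : Fin n → Fin n → ℂ) (t : ℝ) (ξ : EuclideanSpace ℝ (Fin K)) :
    ‖fieldD D α β M t ξ‖ ^ 2 =
      ∑ i, ‖∑ j, ((inner ℝ (D (ξ - (1 - t) • α i - t • β j)) (α i - β j) : ℝ) : ℂ) *
        M i j‖ ^ 2 := by
  rw [EuclideanSpace.norm_sq_eq]
  rfl

/-- The field has constant `L²` norm. -/
theorem lintegral_field (χ : EuclideanSpace ℝ (Fin K) → ℝ) (hχ : Measurable χ)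
    (α β : Fin n → EuclideanSpace ℝ (Fin K)) (M : Fin n → Fin n → ℂ) (m : Fin n → ℝ)
    (hm : ∀ j, 0 ≤ m j)
    (hM1 : ∀ c : Fin n → ℝ, ∑ i, ‖∑ j, (c j : ℂ) * M i j‖ ^ 2 = ∑ j, c j ^ 2 * m j) (t : ℝ) :
    ∫⁻ ξ, ENNReal.ofReal (‖field χ α β M t ξ‖ ^ 2) =
      ENNReal.ofReal (∑ j, m j) * ∫⁻ ξ, ENNReal.ofReal (χ ξ ^ 2) := by
  simp only [norm_sq_field]
  rw [lintegral_translate (fun ξ i j => (χ ξ : ℂ) * M i j)
    (fun i j => (Complex.measurable_ofReal.comp hχ).mul_const _) α β t]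
  have e : ∀ ξ : EuclideanSpace ℝ (Fin K),
      ∑ i, ‖∑ j, (χ (ξ - t • β j) : ℂ) * M i j‖ ^ 2 = ∑ j, χ (ξ - t • β j) ^ 2 * m j :=
    fun ξ => hM1 fun j => χ (ξ - t • β j)
  simp only [e]
  exact lintegral_weighted (fun ξ => χ ξ ^ 2) (hχ.pow_const 2) (fun ξ => sq_nonneg _) β t m hm

/-- The `L²` norm of the time derivative. -/
theorem lintegral_fieldD (D : EuclideanSpace ℝ (Fin K) → EuclideanSpace ℝ (Fin K))
    (hD : Continuous D) (α β : Fin n → EuclideanSpace ℝ (Fin K)) (M : Fin n → Fin n → ℂ)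
    (m : Fin n → ℝ) (hm : ∀ j, 0 ≤ m j) (η : ℝ)
    (hM2 : ∀ y : Fin n → EuclideanSpace ℝ (Fin K),
      ∑ i, ‖∑ j, ((inner ℝ (y j) (α i - β j) : ℝ) : ℂ) * M i j‖ ^ 2 ≤
        η ^ 2 * ∑ j, ‖y j‖ ^ 2 * m j) (t : ℝ) :
    ∫⁻ ξ, ENNReal.ofReal (‖fieldD D α β M t ξ‖ ^ 2) ≤
      ENNReal.ofReal (η ^ 2 * ∑ j, m j) * ∫⁻ ξ, ENNReal.ofReal (‖D ξ‖ ^ 2) := by
  simp only [norm_sq_fieldD]
  rw [lintegral_translate
    (fun ξ i j => ((inner ℝ (D ξ) (α i - β j) : ℝ) : ℂ) * M i j)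
    (fun i j => by
      apply Continuous.measurable
      exact (Complex.continuous_ofReal.comp (hD.inner continuous_const)).mul continuous_const)
    α β t]
  have e : ∀ ξ : EuclideanSpace ℝ (Fin K),
      ENNReal.ofReal (∑ i, ‖∑ j, ((inner ℝ (D (ξ - t • β j)) (α i - β j) : ℝ) : ℂ) *
        M i j‖ ^ 2) ≤ ENNReal.ofReal (∑ j, ‖D (ξ - t • β j)‖ ^ 2 * (η ^ 2 * m j)) := by
    intro ξ
    apply ENNReal.ofReal_le_ofReal
    refine (hM2 fun j => D (ξ - t • β j)).trans (le_of_eq ?_)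
    rw [Finset.mul_sum]
    apply Finset.sum_congr rfl
    intro j _
    ring
  refine (lintegral_mono e).trans (le_of_eq ?_)
  rw [Finset.mul_sum]
  exact lintegral_weighted (fun ξ => ‖D ξ‖ ^ 2) (hD.norm.pow 2).measurable
    (fun ξ => sq_nonneg _) β t (fun j => η ^ 2 * m j) (fun j => mul_nonneg (sq_nonneg _) (hm j))

lemma sq_integral_le {f : ℝ → ℝ} {s t : ℝ} (hst : s ≤ t) (hf : Continuous f) :
    (∫ τ in s..t, f τ) ^ 2 ≤ (t - s) * ∫ τ in s..t, f τ ^ 2 := by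
  rcases hst.eq_or_lt with rfl | hlt
  · simp
  · set I : ℝ := ∫ τ in s..t, f τ with hI
    set c : ℝ := I / (t - s) with hc
    have h0 : 0 ≤ ∫ τ in s..t, (f τ - c) ^ 2 :=
      intervalIntegral.integral_nonneg hst fun _ _ => sq_nonneg _
    have h1 : ∫ τ in s..t, (f τ - c) ^ 2 =
        (∫ τ in s..t, f τ ^ 2) - 2 * c * I + c ^ 2 * (t - s) := by
      have e : (fun τ => (f τ - c) ^ 2) = fun τ => f τ ^ 2 - 2 * c * f τ + c ^ 2 := by
        funext τ; ring
      rw [e, intervalIntegral.integral_add, intervalIntegral.integral_sub,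
        intervalIntegral.integral_const_mul, intervalIntegral.integral_const]
      · simp only [smul_eq_mul]; ring
      · exact (hf.pow 2).intervalIntegrable _ _
      · exact (continuous_const.mul hf).intervalIntegrable _ _
      · exact ((hf.pow 2).sub (continuous_const.mul hf)).intervalIntegrable _ _
      · exact continuous_const.intervalIntegrable _ _
    rw [h1] at h0
    have hts : 0 < t - s := by linarith
    have h2 : c * (t - s) = I := by rw [hc]; field_simp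
    nlinarith

variable {χ : EuclideanSpace ℝ (Fin K) → ℝ}
  {D : EuclideanSpace ℝ (Fin K) → EuclideanSpace ℝ (Fin K)}
  {α β : Fin n → EuclideanSpace ℝ (Fin K)} {M : Fin n → Fin n → ℂ}

lemma hasDerivAt_chi (hD : ∀ ξ, HasGradientAt χ (D ξ) ξ) (ξ a b : EuclideanSpace ℝ (Fin K))
    (t : ℝ) : HasDerivAt (fun τ : ℝ => χ (ξ - (1 - τ) • a - τ • b))
      (inner ℝ (D (ξ - (1 - t) • a - t • b)) (a - b)) t := by
  have h2 : HasDerivAt (fun τ : ℝ => ξ - (1 - τ) • a - τ • b) (a - b) t := by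
    have h3 : HasDerivAt (fun τ : ℝ => (1 - τ) • a) ((-1 : ℝ) • a) t := by
      have := ((hasDerivAt_id t).const_sub 1).smul_const a
      simpa using this
    have h4 : HasDerivAt (fun τ : ℝ => τ • b) ((1 : ℝ) • b) t := by
      have := (hasDerivAt_id t).smul_const b
      simpa using this
    have h5 := (h3.const_sub ξ).sub h4
    refine h5.congr_deriv ?_
    simp
  exact (hD (ξ - (1 - t) • a - t • b)).hasFDerivAt.comp_hasDerivAt t h2

lemma hasDerivAt_coord (hD : ∀ ξ, HasGradientAt χ (D ξ) ξ) (ξ : EuclideanSpace ℝ (Fin K))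
    (i : Fin n) (t : ℝ) :
    HasDerivAt (fun τ : ℝ => ∑ j, (χ (ξ - (1 - τ) • α i - τ • β j) : ℂ) * M i j)
      (∑ j, ((inner ℝ (D (ξ - (1 - t) • α i - t • β j)) (α i - β j) : ℝ) : ℂ) * M i j) t := by
  apply HasDerivAt.fun_sum
  intro j _
  exact (hasDerivAt_chi hD ξ (α i) (β j) t).ofReal_comp.mul_const _

lemma continuous_coordD (hD : Continuous D) (i : Fin n) :
    Continuous fun p : ℝ × EuclideanSpace ℝ (Fin K) =>
      ∑ j, ((inner ℝ (D (p.2 - (1 - p.1) • α i - p.1 • β j)) (α i - β j) : ℝ) : ℂ) *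
        M i j := by
  apply continuous_finsetSum
  intro j _
  apply Continuous.mul _ continuous_const
  apply Complex.continuous_ofReal.comp
  apply Continuous.inner _ continuous_const
  apply hD.comp
  fun_prop

lemma continuous_field (hχ : Continuous χ) :
    Continuous fun p : ℝ × EuclideanSpace ℝ (Fin K) => field χ α β M p.1 p.2 := by
  unfold field
  apply (PiLp.continuous_toLp 2 _).comp
  apply continuous_pi
  intro i
  apply continuous_finsetSum
  intro j _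
  apply Continuous.mul _ continuous_const
  apply Complex.continuous_ofReal.comp
  apply hχ.comp
  fun_prop

/-- The path is Lipschitz in `L²`. -/
theorem lintegral_field_sub (hχD : ∀ ξ, HasGradientAt χ (D ξ) ξ)
    (hD : Continuous D)
    (m : Fin n → ℝ) (hm : ∀ j, 0 ≤ m j) (η : ℝ)
    (hM2 : ∀ y : Fin n → EuclideanSpace ℝ (Fin K),
      ∑ i, ‖∑ j, ((inner ℝ (y j) (α i - β j) : ℝ) : ℂ) * M i j‖ ^ 2 ≤
        η ^ 2 * ∑ j, ‖y j‖ ^ 2 * m j) {s t : ℝ} (hst : s ≤ t) :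
    ∫⁻ ξ, ENNReal.ofReal (‖field χ α β M t ξ - field χ α β M s ξ‖ ^ 2) ≤
      ENNReal.ofReal (((t - s) * η) ^ 2 * ∑ j, m j) * ∫⁻ ξ, ENNReal.ofReal (‖D ξ‖ ^ 2) := by
  have hcont : ∀ i : Fin n, Continuous fun p : ℝ × EuclideanSpace ℝ (Fin K) =>
      ∑ j, ((inner ℝ (D (p.2 - (1 - p.1) • α i - p.1 • β j)) (α i - β j) : ℝ) : ℂ) *
        M i j := fun i => continuous_coordD hD i
  have hslice : ∀ (i : Fin n) (ξ : EuclideanSpace ℝ (Fin K)), Continuous fun τ : ℝ =>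
      ∑ j, ((inner ℝ (D (ξ - (1 - τ) • α i - τ • β j)) (α i - β j) : ℝ) : ℂ) *
        M i j := by
    intro i ξ
    have h := (hcont i).comp (Continuous.prodMk_left ξ)
    exact h
  have hsum : Continuous fun p : ℝ × EuclideanSpace ℝ (Fin K) =>
      ‖fieldD D α β M p.1 p.2‖ ^ 2 := by
    simp only [norm_sq_fieldD]
    exact continuous_finsetSum _ fun i _ => (hcont i).norm.pow 2
  have hmeas : Measurable (Function.uncurry fun (ξ : EuclideanSpace ℝ (Fin K)) (τ : ℝ) =>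
      ENNReal.ofReal (‖fieldD D α β M τ ξ‖ ^ 2)) := by
    have h1 : Continuous fun p : EuclideanSpace ℝ (Fin K) × ℝ =>
        ‖fieldD D α β M p.2 p.1‖ ^ 2 := by
      have h := hsum.comp (continuous_swap (X := EuclideanSpace ℝ (Fin K)) (Y := ℝ))
      exact h
    have h2 := h1.measurable.ennreal_ofReal
    exact h2
  have hpt : ∀ ξ, ENNReal.ofReal (‖field χ α β M t ξ - field χ α β M s ξ‖ ^ 2) ≤
      ENNReal.ofReal (t - s) * ∫⁻ τ in Ioc s t, ENNReal.ofReal (‖fieldD D α β M τ ξ‖ ^ 2) := by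
    intro ξ
    have h3 : ‖field χ α β M t ξ - field χ α β M s ξ‖ ^ 2 ≤
        (t - s) * ∫ τ in s..t, ‖fieldD D α β M τ ξ‖ ^ 2 := by
      have e1 : ‖field χ α β M t ξ - field χ α β M s ξ‖ ^ 2 =
          ∑ i, ‖(∑ j, (χ (ξ - (1 - t) • α i - t • β j) : ℂ) * M i j) -
            ∑ j, (χ (ξ - (1 - s) • α i - s • β j) : ℂ) * M i j‖ ^ 2 := by
        rw [EuclideanSpace.norm_sq_eq]
        rfl
      rw [e1]
      simp only [norm_sq_fieldD]
      have hint : ∀ i ∈ (Finset.univ : Finset (Fin n)), IntervalIntegrable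
          (fun τ : ℝ => ‖∑ j, ((inner ℝ (D (ξ - (1 - τ) • α i - τ • β j)) (α i - β j) : ℝ) : ℂ) *
            M i j‖ ^ 2) volume s t := by
        intro i _
        have h := (hslice i ξ).norm.pow 2
        exact h.intervalIntegrable s t
      rw [intervalIntegral.integral_finsetSum hint, Finset.mul_sum]
      apply Finset.sum_le_sum
      intro i _
      have h1 := intervalIntegral.integral_eq_sub_of_hasDerivAt
        (fun τ (_ : τ ∈ uIcc s t) => hasDerivAt_coord (M := M) (α := α) (β := β) hχD ξ i τ)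
        ((hslice i ξ).intervalIntegrable _ _)
      rw [← h1]
      exact (pow_le_pow_left₀ (norm_nonneg _)
        (intervalIntegral.norm_integral_le_integral_norm hst) 2).trans
        (sq_integral_le hst (hslice i ξ).norm)
    refine (ENNReal.ofReal_le_ofReal h3).trans ?_
    rw [ENNReal.ofReal_mul (by linarith), intervalIntegral.integral_of_le hst,
      ofReal_integral_eq_lintegral_ofReal]
    · have h := hsum.comp (Continuous.prodMk_left ξ)
      exact (h.intervalIntegrable s t).1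
    · exact Filter.Eventually.of_forall fun τ => by positivity
  calc ∫⁻ ξ, ENNReal.ofReal (‖field χ α β M t ξ - field χ α β M s ξ‖ ^ 2)
      ≤ ∫⁻ ξ, ENNReal.ofReal (t - s) *
          ∫⁻ τ in Ioc s t, ENNReal.ofReal (‖fieldD D α β M τ ξ‖ ^ 2) := lintegral_mono hpt
    _ = ENNReal.ofReal (t - s) * ∫⁻ ξ,
          ∫⁻ τ in Ioc s t, ENNReal.ofReal (‖fieldD D α β M τ ξ‖ ^ 2) := by
        rw [lintegral_const_mul' _ _ ENNReal.ofReal_ne_top]
    _ = ENNReal.ofReal (t - s) * ∫⁻ τ in Ioc s t,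
          ∫⁻ ξ, ENNReal.ofReal (‖fieldD D α β M τ ξ‖ ^ 2) := by
        rw [lintegral_lintegral_swap hmeas.aemeasurable]
    _ ≤ ENNReal.ofReal (t - s) * ∫⁻ _ in Ioc s t,
          ENNReal.ofReal (η ^ 2 * ∑ j, m j) * ∫⁻ ξ, ENNReal.ofReal (‖D ξ‖ ^ 2) := by
        gcongr with τ
        exact lintegral_fieldD D hD α β M m hm η hM2 τ
    _ = ENNReal.ofReal (((t - s) * η) ^ 2 * ∑ j, m j) *
          ∫⁻ ξ, ENNReal.ofReal (‖D ξ‖ ^ 2) := by
        rw [setLIntegral_const, Real.volume_Ioc]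
        have e : ((t - s) * η) ^ 2 * ∑ j, m j = (t - s) * ((η ^ 2 * ∑ j, m j) * (t - s)) := by
          ring
        have h0 : 0 ≤ η ^ 2 * ∑ j, m j := mul_nonneg (sq_nonneg _)
          (Finset.sum_nonneg fun j _ => hm j)
        rw [e]
        generalize η ^ 2 * ∑ j, m j = c at h0
        rw [ENNReal.ofReal_mul (by linarith), ENNReal.ofReal_mul h0]
        ring

end Pool.Agent.H29.SpecVar
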