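import Mathlib

set_option autoImplicit false

/-!
# Spectral variation of commuting Hermitian tuples: definitions
-/

namespace Pool.Agent.H29.SpecVar

open scoped ENNReal Matrix

/-- A `K`-tuple: pairwise commuting Hermitian `n × n` complex matrices. -/
structure IsTuple {K n : ℕ} (A : Fin K → Matrix (Fin n) (Fin n) ℂ) : Prop where
  hermitian : ∀ J, (A J).IsHermitian
  commute : ∀ I J, Commute (A I) (A J)

/-- `α` lists the joint eigenvalues of the tuple `A` (with multiplicity): the columns `u_j` of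
some unitary matrix `U` satisfy `A⁽ᴶ⁾ u_j = α_j⁽ᴶ⁾ u_j` for all `J` and `j`. -/
def IsJointEigenvalues {K n : ℕ} (A : Fin K → Matrix (Fin n) (Fin n) ℂ)
    (α : Fin n → EuclideanSpace ℝ (Fin K)) : Prop :=
  ∃ U : Matrix (Fin n) (Fin n) ℂ, Uᴴ * U = 1 ∧
    ∀ J, A J * U = U * Matrix.diagonal fun j => ((α j J : ℝ) : ℂ)

/-- The distance `δ` of two lists of points: minimum over the permutations of the largest
Euclidean distance of matched points. -/
noncomputable def matchDist {K n : ℕ} (α β : Fin n → EuclideanSpace ℝ (Fin K)) : ℝ :=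
  ⨅ π : Equiv.Perm (Fin n), ⨆ j, ‖α j - β (π j)‖

/-- The norm `‖A - B‖` of the problem: the operator norm of the map
`x ↦ ((A⁽¹⁾ - B⁽¹⁾) x, …, (A⁽ᴷ⁾ - B⁽ᴷ⁾) x)` from `ℂⁿ` to `(ℂⁿ)ᴷ`, written as the supremum of the
norms of the images of the vectors `x` of Euclidean norm at most `1`. -/
noncomputable def tupleNorm {K n : ℕ} (A B : Fin K → Matrix (Fin n) (Fin n) ℂ) : ℝ :=
  sSup {r | ∃ x : Fin n → ℂ, ∑ i, ‖x i‖ ^ 2 ≤ 1 ∧
    r = Real.sqrt (∑ J, ∑ i, ‖((A J - B J) *ᵥ x) i‖ ^ 2)}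

/-- The set of admissible constants `C`, with `C = ∞` allowed. -/
def admissible (K : ℕ) : Set ℝ≥0∞ :=
  {C | ∀ n : ℕ, 1 ≤ n → ∀ A B : Fin K → Matrix (Fin n) (Fin n) ℂ, IsTuple A → IsTuple B →
    ∀ α β : Fin n → EuclideanSpace ℝ (Fin K), IsJointEigenvalues A α → IsJointEigenvalues B β →
      ENNReal.ofReal (matchDist α β) ≤ C * ENNReal.ofReal (tupleNorm A B)}

/-- The constant `C_K`. -/
noncomputable def specConst (K : ℕ) : ℝ≥0∞ := sInf (admissible K)

end Pool.Agent.H29.SpecVar
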