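import Mathlib
import Pool.Agent.H29.SpecVar.Core

set_option autoImplicit false

/-!
# The path in `L²`

The fields of `Core.lean` form a path on a sphere of `L²`; if its end points are orthogonal the
length of the path is at least a quarter of a great circle.
-/

namespace Pool.Agent.H29.SpecVar

open MeasureTheory Set

theorem pi_div_two_mul_le_complex {H : Type*} [NormedAddCommGroup H] [InnerProductSpace ℂ H]
    (G : ℝ → H) {r L : ℝ} (hr : 0 < r) (hG : ∀ t ∈ Set.Icc (0 : ℝ) 1, ‖G t‖ = r)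
    (hlip : ∀ s ∈ Set.Icc (0 : ℝ) 1, ∀ t ∈ Set.Icc (0 : ℝ) 1, s ≤ t →
      ‖G t - G s‖ ≤ L * (t - s)) (h01 : inner ℂ (G 0) (G 1) = 0) :
    Real.pi / 2 * r ≤ L := by
  let _ : InnerProductSpace ℝ H := InnerProductSpace.rclikeToReal ℂ H
  apply pi_div_two_mul_le G hr hG hlip
  rw [real_inner_eq_re_inner ℂ, h01]
  simp

lemma norm_toLp_sq {V E : Type*} [MeasureSpace V] [NormedAddCommGroup E] {f : V → E}
    (hf : MemLp f 2 volume) :
    ‖hf.toLp f‖ ^ 2 = (∫⁻ ξ, ENNReal.ofReal (‖f ξ‖ ^ 2)).toReal := by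
  rw [Lp.norm_toLp, ← ENNReal.toReal_pow]
  congr 1
  rw [eLpNorm_eq_lintegral_rpow_enorm_toReal two_ne_zero ENNReal.ofNat_ne_top]
  rw [← ENNReal.rpow_natCast, ← ENNReal.rpow_mul]
  simp only [ENNReal.toReal_ofNat, Nat.cast_ofNat, one_div, isUnit_iff_ne_zero, ne_eq,
    OfNat.ofNat_ne_zero, not_false_eq_true, IsUnit.inv_mul_cancel, ENNReal.rpow_one]
  apply lintegral_congr
  intro ξ
  rw [ENNReal.ofReal_pow (norm_nonneg _), ofReal_norm]
  norm_cast

variable {K n : ℕ} {χ : EuclideanSpace ℝ (Fin K) → ℝ}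
  {D : EuclideanSpace ℝ (Fin K) → EuclideanSpace ℝ (Fin K)}
  {α β : Fin n → EuclideanSpace ℝ (Fin K)} {M : Fin n → Fin n → ℂ}

lemma field_eq_zero {R : ℝ} (hχ0 : ∀ ξ, R ≤ ‖ξ‖ → χ ξ = 0) {t : ℝ}
    {ξ : EuclideanSpace ℝ (Fin K)}
    (hξ : R + ((∑ i, ‖(1 - t) • α i‖) + ∑ j, ‖t • β j‖) < ‖ξ‖) :
    field χ α β M t ξ = 0 := by
  have h : ∀ i j, χ (ξ - (1 - t) • α i - t • β j) = 0 := by
    intro i j
    apply hχ0
    have h1 : ‖(1 - t) • α i‖ ≤ ∑ i, ‖(1 - t) • α i‖ :=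
      Finset.single_le_sum (f := fun i => ‖(1 - t) • α i‖) (fun _ _ => norm_nonneg _)
        (Finset.mem_univ i)
    have h2 : ‖t • β j‖ ≤ ∑ j, ‖t • β j‖ :=
      Finset.single_le_sum (f := fun i => ‖t • β i‖) (fun _ _ => norm_nonneg _)
        (Finset.mem_univ j)
    have h5 : ‖ξ‖ ≤ ‖ξ - (1 - t) • α i - t • β j‖ + ‖(1 - t) • α i‖ + ‖t • β j‖ := by
      calc ‖ξ‖ = ‖(ξ - (1 - t) • α i - t • β j) + (1 - t) • α i + t • β j‖ := by
            congr 1; abel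
        _ ≤ _ := norm_add₃_le
    linarith
  unfold field
  ext i
  simp [h]

lemma memLp_field {R : ℝ} (hχ : Continuous χ) (hχ0 : ∀ ξ, R ≤ ‖ξ‖ → χ ξ = 0) (t : ℝ) :
    MemLp (field χ α β M t) 2 volume := by
  have hc : Continuous (field χ α β M t) := by
    have h := (continuous_field (α := α) (β := β) (M := M) hχ).comp (Continuous.prodMk_right t)
    exact h
  apply hc.memLp_of_hasCompactSupport
  apply HasCompactSupport.intro (isCompact_closedBall (0 : EuclideanSpace ℝ (Fin K))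
    (R + ((∑ i, ‖(1 - t) • α i‖) + ∑ j, ‖t • β j‖)))
  intro ξ hξ
  apply field_eq_zero hχ0
  simpa [dist_zero_right] using hξ

lemma lintegral_sq_eq {E : Type*} [NormedAddCommGroup E] {R : ℝ}
    {f : EuclideanSpace ℝ (Fin K) → E} (hf : Continuous f) (hf0 : ∀ ξ, R ≤ ‖ξ‖ → f ξ = 0) :
    ∫⁻ ξ, ENNReal.ofReal (‖f ξ‖ ^ 2) = ENNReal.ofReal (∫ ξ, ‖f ξ‖ ^ 2) := by
  rw [ofReal_integral_eq_lintegral_ofReal]
  · apply Continuous.integrable_of_hasCompactSupport (hf.norm.pow 2)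
    apply HasCompactSupport.intro (isCompact_closedBall (0 : EuclideanSpace ℝ (Fin K)) R)
    intro ξ hξ
    have h : R < ‖ξ‖ := by simpa [dist_zero_right] using hξ
    simp [hf0 ξ h.le]
  · exact Filter.Eventually.of_forall fun ξ => by positivity

/-- Core inequality: a cut-off function supported in a ball of radius `R`, and two families of
points which are at distance at least `2 R` along the matrix `M`. -/
theorem core {R : ℝ} (hχD : ∀ ξ, HasGradientAt χ (D ξ) ξ) (hD : Continuous D)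
    (hχ0 : ∀ ξ, R ≤ ‖ξ‖ → χ ξ = 0) (hD0 : ∀ ξ, R ≤ ‖ξ‖ → D ξ = 0)
    (hpos : 0 < ∫ ξ, χ ξ ^ 2)
    (m : Fin n → ℝ) (hm : ∀ j, 0 ≤ m j) (hm1 : ∑ j, m j = 1) {η : ℝ} (hη : 0 ≤ η)
    (hM1 : ∀ c : Fin n → ℝ, ∑ i, ‖∑ j, (c j : ℂ) * M i j‖ ^ 2 = ∑ j, c j ^ 2 * m j)
    (hM2 : ∀ y : Fin n → EuclideanSpace ℝ (Fin K),
      ∑ i, ‖∑ j, ((inner ℝ (y j) (α i - β j) : ℝ) : ℂ) * M i j‖ ^ 2 ≤
        η ^ 2 * ∑ j, ‖y j‖ ^ 2 * m j)
    (hM3 : ∀ i j, (∑ j', M i j') = 0 ∨ M i j = 0 ∨ 2 * R ≤ ‖α i - β j‖) :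
    (Real.pi / 2) ^ 2 * ∫ ξ, χ ξ ^ 2 ≤ η ^ 2 * ∫ ξ, ‖D ξ‖ ^ 2 := by
  have hχ : Continuous χ := by
    rw [continuous_iff_continuousAt]
    exact fun ξ => (hχD ξ).hasFDerivAt.continuousAt
  set X : ℝ := ∫ ξ, χ ξ ^ 2 with hX
  set Y : ℝ := ∫ ξ, ‖D ξ‖ ^ 2 with hY
  have hY0 : 0 ≤ Y := integral_nonneg fun _ => by positivity
  have hX1 : ∫⁻ ξ, ENNReal.ofReal (χ ξ ^ 2) = ENNReal.ofReal X := by
    have := lintegral_sq_eq hχ hχ0
    simpa [sq_abs] using this
  have hY1 : ∫⁻ ξ, ENNReal.ofReal (‖D ξ‖ ^ 2) = ENNReal.ofReal Y := lintegral_sq_eq hD hD0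
  let G : ℝ → Lp (EuclideanSpace ℂ (Fin n)) 2 (volume : Measure (EuclideanSpace ℝ (Fin K))) :=
    fun t => (memLp_field (α := α) (β := β) (M := M) hχ hχ0 t).toLp (field χ α β M t)
  have hGnorm : ∀ t, ‖G t‖ = Real.sqrt X := by
    intro t
    have h1 : ‖G t‖ ^ 2 = X := by
      rw [norm_toLp_sq, lintegral_field χ hχ.measurable α β M m hm hM1 t, hm1, hX1]
      simp [hpos.le]
    rw [← h1, Real.sqrt_sq (norm_nonneg _)]
  have hGlip : ∀ s t, s ≤ t → ‖G t - G s‖ ≤ (η * Real.sqrt Y) * (t - s) := by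
    intro s t hst
    have h0 : 0 ≤ (η * Real.sqrt Y) * (t - s) :=
      mul_nonneg (mul_nonneg hη (Real.sqrt_nonneg _)) (by linarith)
    have h1 : ‖G t - G s‖ ^ 2 ≤ ((η * Real.sqrt Y) * (t - s)) ^ 2 := by
      rw [← MemLp.toLp_sub, norm_toLp_sq]
      have h2 := lintegral_field_sub (α := α) (β := β) (M := M) hχD hD m hm η hM2 hst
      rw [hm1, hY1, mul_one, ← ENNReal.ofReal_mul (by positivity)] at h2
      refine (ENNReal.toReal_mono ENNReal.ofReal_ne_top h2).trans ?_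
      rw [ENNReal.toReal_ofReal (by positivity)]
      apply le_of_eq
      rw [mul_pow, mul_pow, mul_pow, Real.sq_sqrt hY0]
      ring
    exact le_of_sq_le_sq h1 h0
  have hG01 : inner ℂ (G 0) (G 1) = 0 := by
    rw [L2.inner_def]
    have h1 : (fun ξ => inner ℂ (G 0 ξ) (G 1 ξ)) =ᵐ[volume] fun _ => (0 : ℂ) := by
      filter_upwards [(memLp_field (α := α) (β := β) (M := M) hχ hχ0 0).coeFn_toLp,
        (memLp_field (α := α) (β := β) (M := M) hχ hχ0 1).coeFn_toLp] with ξ e0 e1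
      have e0' : G 0 ξ = field χ α β M 0 ξ := e0
      have e1' : G 1 ξ = field χ α β M 1 ξ := e1
      rw [e0', e1', EuclideanSpace.inner_eq_star_dotProduct]
      simp only [field, dotProduct, Pi.star_apply]
      apply Finset.sum_eq_zero
      intro i _
      have h0 : (star (∑ j, (χ (ξ - (1 - 0 : ℝ) • α i - (0 : ℝ) • β j) : ℂ) * M i j) : ℂ) =
          (χ (ξ - α i) : ℂ) * star (∑ j, M i j) := by
        simp only [sub_zero, one_smul, zero_smul]
        rw [← Finset.mul_sum, star_mul']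
        congr 1
        exact Complex.conj_ofReal _
      rw [h0]
      simp only [sub_self, zero_smul, sub_zero, one_smul]
      rw [Finset.sum_mul]
      apply Finset.sum_eq_zero
      intro j _
      rcases hM3 i j with h | h | h
      · simp [h]
      · simp [h]
      · have h2 : χ (ξ - α i) * χ (ξ - β j) = 0 := by
          by_cases h3 : R ≤ ‖ξ - α i‖
          · rw [hχ0 _ h3, zero_mul]
          · rw [hχ0 (ξ - β j), mul_zero]
            have h4 : ‖α i - β j‖ ≤ ‖ξ - α i‖ + ‖ξ - β j‖ := by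
              calc ‖α i - β j‖ = ‖(ξ - β j) - (ξ - α i)‖ := by congr 1; abel
                _ ≤ ‖ξ - β j‖ + ‖ξ - α i‖ := norm_sub_le _ _
                _ = _ := by ring
            linarith
        have h5 : (χ (ξ - α i) : ℂ) * (χ (ξ - β j) : ℂ) = 0 := by
          rw [← Complex.ofReal_mul, h2, Complex.ofReal_zero]
        calc (χ (ξ - β j) : ℂ) * M i j * ((χ (ξ - α i) : ℂ) * star (∑ j, M i j))
            = ((χ (ξ - α i) : ℂ) * (χ (ξ - β j) : ℂ)) * (M i j * star (∑ j, M i j)) := by ring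
          _ = 0 := by rw [h5, zero_mul]
    rw [integral_congr_ae h1, integral_zero]
  have key := pi_div_two_mul_le_complex G (r := Real.sqrt X) (L := η * Real.sqrt Y)
    (Real.sqrt_pos.mpr hpos) (fun t _ => hGnorm t) (fun s _ t _ hst => hGlip s t hst) hG01
  have h0 : 0 ≤ Real.pi / 2 * Real.sqrt X := by positivity
  have h1 := pow_le_pow_left₀ h0 key 2
  rw [mul_pow, mul_pow, Real.sq_sqrt hpos.le, Real.sq_sqrt hY0] at h1
  exact h1

end Pool.Agent.H29.SpecVar
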