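import Mathlib
import Pool.Agent.H29.SpecVar.Defs

set_option autoImplicit false

/-!
# Operator form of the definitions
-/

namespace Pool.Agent.H29.SpecVar

open scoped Matrix

variable {K n : ℕ}

/-- The (continuous linear) map `x ↦ ((A⁽¹⁾ - B⁽¹⁾) x, …, (A⁽ᴷ⁾ - B⁽ᴷ⁾) x)` from `ℂⁿ` to
`(ℂⁿ)ᴷ`, where `(ℂⁿ)ᴷ` has the Hilbert space norm. -/
noncomputable def diffMap {K n : ℕ} (A B : Fin K → Matrix (Fin n) (Fin n) ℂ) :
    EuclideanSpace ℂ (Fin n) →L[ℂ] PiLp 2 (fun _ : Fin K => EuclideanSpace ℂ (Fin n)) where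
  toFun x := WithLp.toLp 2 fun J => Matrix.toEuclideanLin (A J - B J) x
  map_add' x y := by
    apply PiLp.ext
    intro J
    exact map_add (Matrix.toEuclideanLin (A J - B J)) x y
  map_smul' c x := by
    apply PiLp.ext
    intro J
    exact map_smul (Matrix.toEuclideanLin (A J - B J)) c x
  cont := (PiLp.continuous_toLp 2 _).comp
    (continuous_pi fun J => LinearMap.continuous_of_finiteDimensional _)

lemma diffMap_apply (A B : Fin K → Matrix (Fin n) (Fin n) ℂ) (x : EuclideanSpace ℂ (Fin n))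
    (J : Fin K) : diffMap A B x J = Matrix.toEuclideanLin (A J - B J) x := rfl

lemma norm_diffMap_apply (A B : Fin K → Matrix (Fin n) (Fin n) ℂ) (x : Fin n → ℂ) :
    ‖diffMap A B (WithLp.toLp 2 x)‖ = Real.sqrt (∑ J, ∑ i, ‖((A J - B J) *ᵥ x) i‖ ^ 2) := by
  rw [← Real.sqrt_sq (norm_nonneg (diffMap A B (WithLp.toLp 2 x)))]
  congr 1
  rw [PiLp.norm_sq_eq_of_L2]
  apply Finset.sum_congr rfl
  intro J _
  rw [diffMap_apply, EuclideanSpace.norm_sq_eq]
  rfl

lemma bddAbove_tupleNorm (A B : Fin K → Matrix (Fin n) (Fin n) ℂ) :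
    BddAbove {r | ∃ x : Fin n → ℂ, ∑ i, ‖x i‖ ^ 2 ≤ 1 ∧
      r = Real.sqrt (∑ J, ∑ i, ‖((A J - B J) *ᵥ x) i‖ ^ 2)} := by
  refine ⟨‖diffMap A B‖, ?_⟩
  rintro r ⟨x, hx, rfl⟩
  rw [← norm_diffMap_apply]
  have h1 : ‖(WithLp.toLp 2 x : EuclideanSpace ℂ (Fin n))‖ ≤ 1 := by
    rw [← sq_le_one_iff₀ (norm_nonneg _), EuclideanSpace.norm_sq_eq]
    exact hx
  calc ‖diffMap A B (WithLp.toLp 2 x)‖
      ≤ ‖diffMap A B‖ * ‖(WithLp.toLp 2 x : EuclideanSpace ℂ (Fin n))‖ :=
        (diffMap A B).le_opNorm _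
    _ ≤ ‖diffMap A B‖ * 1 := by gcongr
    _ = ‖diffMap A B‖ := mul_one _

lemma tupleNorm_nonneg (A B : Fin K → Matrix (Fin n) (Fin n) ℂ) : 0 ≤ tupleNorm A B := by
  apply Real.sSup_nonneg
  rintro r ⟨x, _, rfl⟩
  exact Real.sqrt_nonneg _

/-- `tupleNorm` is the operator norm. -/
theorem tupleNorm_eq (A B : Fin K → Matrix (Fin n) (Fin n) ℂ) :
    tupleNorm A B = ‖diffMap A B‖ := by
  apply le_antisymm
  · apply csSup_le
    · exact ⟨_, 0, by simp, rfl⟩
    · rintro r ⟨x, hx, rfl⟩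
      rw [← norm_diffMap_apply]
      have h1 : ‖(WithLp.toLp 2 x : EuclideanSpace ℂ (Fin n))‖ ≤ 1 := by
        rw [← sq_le_one_iff₀ (norm_nonneg _), EuclideanSpace.norm_sq_eq]
        exact hx
      calc ‖diffMap A B (WithLp.toLp 2 x)‖
          ≤ ‖diffMap A B‖ * ‖(WithLp.toLp 2 x : EuclideanSpace ℂ (Fin n))‖ :=
            (diffMap A B).le_opNorm _
        _ ≤ ‖diffMap A B‖ * 1 := by gcongr
        _ = ‖diffMap A B‖ := mul_one _
  · apply ContinuousLinearMap.opNorm_le_bound _ (tupleNorm_nonneg A B)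
    intro z
    rcases eq_or_ne z 0 with rfl | hz
    · simp
    · have hzn : 0 < ‖z‖ := norm_pos_iff.mpr hz
      set y : EuclideanSpace ℂ (Fin n) := ((‖z‖⁻¹ : ℝ) : ℂ) • z with hy
      have hyn : ‖y‖ = 1 := by
        rw [hy, norm_smul, Complex.norm_real, norm_inv, norm_norm, inv_mul_cancel₀ hzn.ne']
      have h1 : ‖diffMap A B y‖ ≤ tupleNorm A B := by
        apply le_csSup (bddAbove_tupleNorm A B)
        refine ⟨y.ofLp, ?_, ?_⟩
        · rw [← EuclideanSpace.norm_sq_eq, hyn, one_pow]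
        · rw [← norm_diffMap_apply]
      have h2 : ‖diffMap A B y‖ = ‖z‖⁻¹ * ‖diffMap A B z‖ := by
        rw [hy, map_smul, norm_smul, Complex.norm_real, norm_inv, norm_norm]
      rw [h2, inv_mul_le_iff₀ hzn] at h1
      rw [mul_comm]
      exact h1

/-- The joint eigenvalues in terms of an orthonormal basis. -/
theorem IsJointEigenvalues.exists_basis {A : Fin K → Matrix (Fin n) (Fin n) ℂ}
    {α : Fin n → EuclideanSpace ℝ (Fin K)} (h : IsJointEigenvalues A α) :
    ∃ u : OrthonormalBasis (Fin n) ℂ (EuclideanSpace ℂ (Fin n)),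
      ∀ j J, Matrix.toEuclideanLin (A J) (u j) = ((α j J : ℝ) : ℂ) • u j := by
  obtain ⟨U, hU, hAU⟩ := h
  let w : Fin n → EuclideanSpace ℂ (Fin n) := fun j => WithLp.toLp 2 fun i => U i j
  have hw : Orthonormal ℂ w := by
    rw [orthonormal_iff_ite]
    intro i j
    have h1 : inner ℂ (w i) (w j) = (Uᴴ * U) i j := by
      rw [Matrix.mul_apply, PiLp.inner_apply]
      apply Finset.sum_congr rfl
      intro k _
      simp only [w, Matrix.conjTranspose_apply, RCLike.inner_apply]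
      rw [mul_comm]
      rfl
    rw [h1, hU, Matrix.one_apply]
  have hspan : ⊤ ≤ Submodule.span ℂ (Set.range w) := by
    rw [hw.linearIndependent.span_eq_top_of_card_eq_finrank' (by simp)]
  let b := OrthonormalBasis.mk hw hspan
  refine ⟨b, ?_⟩
  intro j J
  have hb : b j = w j := by
    simp [b]
  rw [hb]
  apply PiLp.ext
  intro i
  have h2 := congrFun (congrFun (hAU J) i) j
  rw [Matrix.mul_diagonal, Matrix.mul_apply] at h2
  have h3 : (Matrix.toEuclideanLin (A J) (w j)) i = ∑ k, A J i k * U k j := rfl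
  rw [h3, h2]
  simp [w, mul_comm]

/-- Converse of the previous statement. -/
theorem isJointEigenvalues_of_basis {A : Fin K → Matrix (Fin n) (Fin n) ℂ}
    {α : Fin n → EuclideanSpace ℝ (Fin K)}
    (u : OrthonormalBasis (Fin n) ℂ (EuclideanSpace ℂ (Fin n)))
    (hu : ∀ j J, Matrix.toEuclideanLin (A J) (u j) = ((α j J : ℝ) : ℂ) • u j) :
    IsJointEigenvalues A α := by
  refine ⟨Matrix.of fun i j => u j i, ?_, ?_⟩
  · ext i j
    have h1 := (orthonormal_iff_ite.mp u.orthonormal) i j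
    rw [Matrix.mul_apply, Matrix.one_apply, ← h1, PiLp.inner_apply]
    apply Finset.sum_congr rfl
    intro k _
    simp only [Matrix.conjTranspose_apply, Matrix.of_apply, RCLike.inner_apply]
    rw [mul_comm]
    rfl
  · intro J
    ext i j
    rw [Matrix.mul_diagonal, Matrix.mul_apply]
    have h2 := congrArg (fun z : EuclideanSpace ℂ (Fin n) => z i) (hu j J)
    have h3 : (Matrix.toEuclideanLin (A J) (u j)) i = ∑ k, A J i k * u j k := rfl
    simp only [Matrix.of_apply]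
    rw [← h3]
    refine h2.trans ?_
    simp [mul_comm]

end Pool.Agent.H29.SpecVar
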