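import Mathlib
import Pool.Agent.H29.SpecVar.Op

set_option autoImplicit false

/-!
# Hall violators and vectors in the intersection of two spectral subspaces
-/

namespace Pool.Agent.H29.SpecVar

open Finset

variable {K n : ℕ}

lemma toEuclideanLin_isSymmetric {A : Matrix (Fin n) (Fin n) ℂ} (hA : A.IsHermitian)
    (x y : EuclideanSpace ℂ (Fin n)) :
    inner ℂ (Matrix.toEuclideanLin A x) y = inner ℂ x (Matrix.toEuclideanLin A y) :=
  (Matrix.isSymmetric_toEuclideanLin_iff.mpr hA) x y

/-- The row norm is at most the column norm. -/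
lemma norm_sum_le (A B : Fin K → Matrix (Fin n) (Fin n) ℂ) (hA : ∀ J, (A J).IsHermitian)
    (hB : ∀ J, (B J).IsHermitian) (w : Fin K → EuclideanSpace ℂ (Fin n)) :
    ‖∑ J, Matrix.toEuclideanLin (A J - B J) (w J)‖ ^ 2 ≤ tupleNorm A B ^ 2 * ∑ J, ‖w J‖ ^ 2 := by
  set z : EuclideanSpace ℂ (Fin n) := ∑ J, Matrix.toEuclideanLin (A J - B J) (w J) with hz
  set W : PiLp 2 (fun _ : Fin K => EuclideanSpace ℂ (Fin n)) := WithLp.toLp 2 w with hW
  have hWn : ‖W‖ ^ 2 = ∑ J, ‖w J‖ ^ 2 := by
    rw [PiLp.norm_sq_eq_of_L2]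
  have h0 : inner ℂ (diffMap A B z) W =
      ∑ J, inner ℂ (Matrix.toEuclideanLin (A J - B J) z) (w J) := by
    rw [PiLp.inner_apply]
    rfl
  have h1 : inner ℂ z z = inner ℂ (diffMap A B z) W := by
    calc inner ℂ z z = inner ℂ z (∑ J, Matrix.toEuclideanLin (A J - B J) (w J)) := by rw [← hz]
      _ = ∑ J, inner ℂ z (Matrix.toEuclideanLin (A J - B J) (w J)) := inner_sum _ _ _
      _ = ∑ J, inner ℂ (Matrix.toEuclideanLin (A J - B J) z) (w J) := by
          apply Finset.sum_congr rfl
          intro J _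
          exact (toEuclideanLin_isSymmetric ((hA J).sub (hB J)) _ _).symm
      _ = _ := h0.symm
  have h2 : ‖z‖ ^ 2 ≤ (tupleNorm A B * ‖z‖) * ‖W‖ := by
    have h3 : ‖z‖ ^ 2 = ‖inner ℂ z z‖ := by
      rw [inner_self_eq_norm_sq_to_K]
      simp
    rw [h3, h1]
    refine (norm_inner_le_norm _ _).trans ?_
    gcongr
    rw [tupleNorm_eq]
    exact (diffMap A B).le_opNorm z
  rw [← hWn]
  have hT : 0 ≤ tupleNorm A B := tupleNorm_nonneg A B
  have h4 : ‖z‖ ≤ tupleNorm A B * ‖W‖ := by
    rcases (norm_nonneg z).eq_or_lt with h | h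
    · rw [← h]; exact mul_nonneg hT (norm_nonneg _)
    · have h5 : ‖z‖ * ‖z‖ ≤ ‖z‖ * (tupleNorm A B * ‖W‖) := by nlinarith
      exact le_of_mul_le_mul_left h5 h
  calc ‖z‖ ^ 2 ≤ (tupleNorm A B * ‖W‖) ^ 2 := pow_le_pow_left₀ (norm_nonneg _) h4 2
    _ = _ := by ring

/-- Hall's theorem: if the matching distance is `d` there is a set `S` of indices such that fewer
than `|S|` of the points `β j` are at distance less than `d` from a point `α i`, `i ∈ S`. -/
lemma exists_hall_violator (hn : 1 ≤ n) (α β : Fin n → EuclideanSpace ℝ (Fin K)) :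
    ∃ S N : Finset (Fin n), N.card < S.card ∧
      ∀ i ∈ S, ∀ j, j ∉ N → matchDist α β ≤ ‖α i - β j‖ := by
  classical
  have : Nonempty (Fin n) := ⟨⟨0, by omega⟩⟩
  by_contra hcon
  push Not at hcon
  set d : ℝ := matchDist α β with hd
  let t : Fin n → Finset (Fin n) := fun i => univ.filter fun j => ‖α i - β j‖ < d
  have hall : ∀ s : Finset (Fin n), s.card ≤ (s.biUnion t).card := by
    intro s
    by_contra hs
    push Not at hs
    obtain ⟨i, hi, j, hj, hlt⟩ := hcon s (s.biUnion t) hs
    apply hj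
    rw [mem_biUnion]
    exact ⟨i, hi, by simp only [t, mem_filter, mem_univ, true_and]; exact hlt⟩
  obtain ⟨f, hf, hft⟩ := (Finset.all_card_le_biUnion_card_iff_exists_injective t).mp hall
  let π : Equiv.Perm (Fin n) := Equiv.ofBijective f (Finite.injective_iff_bijective.mp hf)
  have h1 : d ≤ ⨆ j, ‖α j - β (π j)‖ := by
    rw [hd]
    exact ciInf_le (Finite.bddBelow_range _) π
  obtain ⟨i, hi⟩ := exists_eq_ciSup_of_finite (f := fun j => ‖α j - β (π j)‖)
  have h2 := hft i
  simp only [t, mem_filter, mem_univ, true_and] at h2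
  have h3 : ‖α i - β (π i)‖ < d := h2
  rw [← hi] at h1
  linarith

/-- A unit vector orthogonal to fewer than `n` given vectors of two orthonormal bases. -/
lemma exists_unit_vector (u v : OrthonormalBasis (Fin n) ℂ (EuclideanSpace ℂ (Fin n)))
    (S N : Finset (Fin n)) (h : N.card < S.card) :
    ∃ x : EuclideanSpace ℂ (Fin n), ‖x‖ = 1 ∧ (∀ i, i ∉ S → inner ℂ (u i) x = 0) ∧
      ∀ j ∈ N, inner ℂ (v j) x = 0 := by
  classical
  set F : Finset (EuclideanSpace ℂ (Fin n)) := (Sᶜ.image u) ∪ (N.image v) with hF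
  set W : Submodule ℂ (EuclideanSpace ℂ (Fin n)) := Submodule.span ℂ (F : Set _) with hW
  have hcard : F.card < n := by
    calc F.card ≤ (Sᶜ.image u).card + (N.image v).card := card_union_le _ _
      _ ≤ Sᶜ.card + N.card := add_le_add card_image_le card_image_le
      _ = (n - S.card) + N.card := by rw [card_compl, Fintype.card_fin]
      _ < n := by
        have : S.card ≤ n := by simpa using card_le_univ S
        omega
  have hrank : Module.finrank ℂ W < n := lt_of_le_of_lt (finrank_span_finset_le_card F) hcard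
  have hsum := W.finrank_add_finrank_orthogonal
  rw [finrank_euclideanSpace_fin] at hsum
  have hne : Wᗮ ≠ ⊥ := by
    intro hbot
    rw [hbot, finrank_bot] at hsum
    omega
  obtain ⟨y, hy, hy0⟩ := Submodule.exists_mem_ne_zero_of_ne_bot hne
  have hyn : (0 : ℝ) < ‖y‖ := norm_pos_iff.mpr hy0
  refine ⟨((‖y‖⁻¹ : ℝ) : ℂ) • y, ?_, ?_, ?_⟩
  · rw [norm_smul, Complex.norm_real, norm_inv, norm_norm, inv_mul_cancel₀ hyn.ne']
  · intro i hi
    rw [inner_smul_right]
    have : inner ℂ (u i) y = 0 := by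
      apply (Submodule.mem_orthogonal W y).mp hy
      apply Submodule.subset_span
      rw [hF]
      simp only [coe_union, coe_image, Set.mem_union, Set.mem_image]
      left
      exact ⟨i, by simpa using hi, rfl⟩
    rw [this, mul_zero]
  · intro j hj
    rw [inner_smul_right]
    have : inner ℂ (v j) y = 0 := by
      apply (Submodule.mem_orthogonal W y).mp hy
      apply Submodule.subset_span
      rw [hF]
      simp only [coe_union, coe_image, Set.mem_union, Set.mem_image]
      right
      exact ⟨j, by simpa using hj, rfl⟩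
    rw [this, mul_zero]

end Pool.Agent.H29.SpecVar
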