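import Mathlib
import Pool.Agent.H29.SpecVar.Match
import Pool.Agent.H29.SpecVar.Bump
import Pool.Agent.H29.SpecVar.L2Path

set_option autoImplicit false

/-!
# The bound for the matching distance
-/

namespace Pool.Agent.H29.SpecVar

open MeasureTheory

variable {K n : ℕ}

/-- The explicit constant `(2 / π) (√(2 K) + √(K (K + 2)))`. -/
noncomputable def boundConst (K : ℕ) : ℝ :=
  2 / Real.pi * (Real.sqrt (2 * K) + Real.sqrt (K * (K + 2)))

lemma boundConst_nonneg (K : ℕ) : 0 ≤ boundConst K := by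
  unfold boundConst
  have := Real.pi_pos
  positivity

section basis

variable (u v : OrthonormalBasis (Fin n) ℂ (EuclideanSpace ℂ (Fin n)))
  (x : EuclideanSpace ℂ (Fin n))

lemma sum_norm_coeff (c : Fin n → ℂ) :
    ∑ i, ‖∑ j, c j * inner ℂ (u i) (v j)‖ ^ 2 = ∑ j, ‖c j‖ ^ 2 := by
  have h1 : ∀ i, ∑ j, c j * inner ℂ (u i) (v j) = inner ℂ (u i) (∑ j, c j • v j) := by
    intro i
    rw [inner_sum]
    apply Finset.sum_congr rfl
    intro j _
    rw [inner_smul_right]
  simp only [h1]
  rw [u.sum_sq_norm_inner_right, ← v.sum_sq_norm_inner_right (∑ j, c j • v j)]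
  apply Finset.sum_congr rfl
  intro j _
  rw [Orthonormal.inner_right_fintype v.orthonormal]

end basis

/-- The main estimate. -/
theorem matchDist_le (hK : 1 ≤ K) (hn : 1 ≤ n) (A B : Fin K → Matrix (Fin n) (Fin n) ℂ)
    (hA : IsTuple A) (hB : IsTuple B) (α β : Fin n → EuclideanSpace ℝ (Fin K))
    (hα : IsJointEigenvalues A α) (hβ : IsJointEigenvalues B β) :
    matchDist α β ≤ boundConst K * tupleNorm A B := by
  have hT : 0 ≤ tupleNorm A B := tupleNorm_nonneg A B
  rcases le_or_gt (matchDist α β) 0 with hd | hd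
  · exact hd.trans (mul_nonneg (boundConst_nonneg K) hT)
  obtain ⟨S, N, hcard, hfar⟩ := exists_hall_violator hn α β
  set d : ℝ := matchDist α β with hd'
  obtain ⟨u, hu⟩ := hα.exists_basis
  obtain ⟨v, hv⟩ := hβ.exists_basis
  obtain ⟨x, hx1, hxS, hxN⟩ := exists_unit_vector u v S N hcard
  set b : Fin n → ℂ := fun j => inner ℂ (v j) x with hb
  let M : Fin n → Fin n → ℂ := fun i j => b j * inner ℂ (u i) (v j)
  let m : Fin n → ℝ := fun j => ‖b j‖ ^ 2
  have hm : ∀ j, 0 ≤ m j := fun j => sq_nonneg _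
  have hm1 : ∑ j, m j = 1 := by
    have := v.sum_sq_norm_inner_right x
    rw [hx1, one_pow] at this
    exact this
  have hM1 : ∀ c : Fin n → ℝ, ∑ i, ‖∑ j, (c j : ℂ) * M i j‖ ^ 2 = ∑ j, c j ^ 2 * m j := by
    intro c
    have h1 := sum_norm_coeff u v (fun j => (c j : ℂ) * b j)
    simp only [M, ← mul_assoc]
    rw [h1]
    apply Finset.sum_congr rfl
    intro j _
    rw [norm_mul, mul_pow, Complex.norm_real, Real.norm_eq_abs, sq_abs]
  have hM2 : ∀ y : Fin n → EuclideanSpace ℝ (Fin K),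
      ∑ i, ‖∑ j, ((inner ℝ (y j) (α i - β j) : ℝ) : ℂ) * M i j‖ ^ 2 ≤
        tupleNorm A B ^ 2 * ∑ j, ‖y j‖ ^ 2 * m j := by
    intro y
    let w : Fin K → EuclideanSpace ℂ (Fin n) := fun J => ∑ j, (((y j J : ℝ) : ℂ) * b j) • v j
    have hentry : ∀ i j J, inner ℂ (u i) (Matrix.toEuclideanLin (A J - B J) (v j)) =
        (((α i J - β j J : ℝ)) : ℂ) * inner ℂ (u i) (v j) := by
      intro i j J
      rw [map_sub, LinearMap.sub_apply, inner_sub_right, ← toEuclideanLin_isSymmetric
        (hA.hermitian J), hu i J, hv j J, inner_smul_left, inner_smul_right, Complex.conj_ofReal]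
      push_cast
      ring
    have h1 : ∀ i, ∑ j, ((inner ℝ (y j) (α i - β j) : ℝ) : ℂ) * M i j =
        inner ℂ (u i) (∑ J, Matrix.toEuclideanLin (A J - B J) (w J)) := by
      intro i
      rw [inner_sum]
      have h2 : ∀ J, inner ℂ (u i) (Matrix.toEuclideanLin (A J - B J) (w J)) =
          ∑ j, (((y j J : ℝ) : ℂ) * b j) * ((((α i J - β j J : ℝ)) : ℂ) * inner ℂ (u i) (v j)) := by
        intro J
        rw [map_sum, inner_sum]
        apply Finset.sum_congr rfl
        intro j _
        rw [map_smul, inner_smul_right, hentry]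
      simp only [h2]
      rw [Finset.sum_comm]
      apply Finset.sum_congr rfl
      intro j _
      have h3 : (inner ℝ (y j) (α i - β j) : ℝ) = ∑ J, y j J * (α i J - β j J) := by
        rw [PiLp.inner_apply]
        apply Finset.sum_congr rfl
        intro J _
        simp [mul_comm]
      rw [h3]
      push_cast
      rw [Finset.sum_mul]
      apply Finset.sum_congr rfl
      intro J _
      simp only [M]
      ring
    simp only [h1]
    rw [u.sum_sq_norm_inner_right]
    refine (norm_sum_le A B hA.hermitian hB.hermitian w).trans (le_of_eq ?_)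
    congr 1
    have h4 : ∀ J, ‖w J‖ ^ 2 = ∑ j, y j J ^ 2 * m j := by
      intro J
      rw [← v.sum_sq_norm_inner_right (w J)]
      apply Finset.sum_congr rfl
      intro j _
      simp only [w]
      rw [Orthonormal.inner_right_fintype v.orthonormal, norm_mul, mul_pow, Complex.norm_real,
        Real.norm_eq_abs, sq_abs]
    simp only [h4]
    rw [Finset.sum_comm]
    apply Finset.sum_congr rfl
    intro j _
    rw [← Finset.sum_mul, EuclideanSpace.norm_sq_eq]
    congr 1
    apply Finset.sum_congr rfl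
    intro J _
    rw [Real.norm_eq_abs, sq_abs]
  have hM3 : ∀ i j, (∑ j', M i j') = 0 ∨ M i j = 0 ∨ 2 * (d / 2) ≤ ‖α i - β j‖ := by
    intro i j
    by_cases hi : i ∈ S
    · by_cases hj : j ∈ N
      · right; left
        simp only [M, hb]
        rw [hxN j hj, zero_mul]
      · right; right
        rw [mul_div_cancel₀ d two_ne_zero]
        exact hfar i hi j hj
    · left
      have h1 : ∑ j', M i j' = inner ℂ (u i) x := by
        conv_rhs => rw [← v.sum_repr' x, inner_sum]
        apply Finset.sum_congr rfl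
        intro j' _
        rw [inner_smul_right]
      rw [h1]
      exact hxS i hi
  -- the cut-off function
  have hK0 : (0 : ℝ) < K := by exact_mod_cast hK
  set s : ℝ := Real.sqrt (1 + K / 2) with hs
  have hs2 : s ^ 2 = 1 + K / 2 := Real.sq_sqrt (by positivity)
  have hs0 : 0 ≤ s := Real.sqrt_nonneg _
  have hs1 : 1 < s := by
    by_contra hcon
    push Not at hcon
    nlinarith
  set p : ℝ := (1 + s) / 2 with hp
  have hp1 : 1 < p := by rw [hp]; linarith
  have hR : 0 < d / 2 := by linarith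
  have hcore := core (α := α) (β := β) (M := M) (fun ξ => hasGradientAt_cut (R := d / 2) hp1 ξ)
    (continuous_cutD hp1) (cut_eq_zero hR hp1) (cutD_eq_zero hR hp1)
    (integral_cut_pos hK hR hp1) m hm hm1 hT hM1 hM2 hM3
  rw [integral_ratio hK hR hp1] at hcore
  have hX := integral_cut_pos hK hR hp1
  generalize (∫ ξ, cut K (d / 2) p ξ ^ 2) = X at hcore hX
  have h1 : (Real.pi / 2) ^ 2 ≤
      tupleNorm A B ^ 2 * (p * K * (K + 4 * p) / (2 * (2 * p - 1) * (d / 2) ^ 2)) := by
    have h2 : (Real.pi / 2) ^ 2 * X ≤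
        (tupleNorm A B ^ 2 * (p * K * (K + 4 * p) / (2 * (2 * p - 1) * (d / 2) ^ 2))) * X := by
      rw [mul_assoc]; exact hcore
    exact le_of_mul_le_mul_right h2 hX
  have h2 : p * K * (K + 4 * p) / (2 * (2 * p - 1) * (d / 2) ^ 2) =
      K * (2 * (1 + s) ^ 2) / d ^ 2 := by
    have e1 : (2 : ℝ) * p - 1 = s := by rw [hp]; ring
    have e2 : (K : ℝ) + 4 * p = 2 * s * (1 + s) := by
      rw [hp]
      have : (K : ℝ) = 2 * s ^ 2 - 2 := by rw [hs2]; ring
      rw [this]; ring
    rw [e1, e2, hp]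
    have hsne : s ≠ 0 := by linarith
    have hdne : d ≠ 0 := hd.ne'
    field_simp
  rw [h2] at h1
  have h3 : (Real.pi / 2) ^ 2 * d ^ 2 ≤ tupleNorm A B ^ 2 * (K * (2 * (1 + s) ^ 2)) := by
    have hd2 : 0 < d ^ 2 := by positivity
    calc (Real.pi / 2) ^ 2 * d ^ 2
        ≤ tupleNorm A B ^ 2 * (K * (2 * (1 + s) ^ 2) / d ^ 2) * d ^ 2 :=
          mul_le_mul_of_nonneg_right h1 hd2.le
      _ = _ := by field_simp
  have h4 : Real.sqrt (2 * K) + Real.sqrt (K * (K + 2)) = Real.sqrt (2 * K) * (1 + s) := by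
    have : (K : ℝ) * (K + 2) = (2 * K) * (1 + K / 2) := by ring
    rw [this, Real.sqrt_mul (show (0 : ℝ) ≤ 2 * K by positivity) (1 + K / 2), ← hs]
    ring
  have h5 : ((Real.pi / 2) * d) ^ 2 ≤
      (tupleNorm A B * (Real.sqrt (2 * K) + Real.sqrt (K * (K + 2)))) ^ 2 := by
    rw [h4, mul_pow, mul_pow, mul_pow, Real.sq_sqrt (by positivity)]
    calc (Real.pi / 2) ^ 2 * d ^ 2 ≤ tupleNorm A B ^ 2 * (K * (2 * (1 + s) ^ 2)) := h3
      _ = _ := by ring
  have h6 : (Real.pi / 2) * d ≤
      tupleNorm A B * (Real.sqrt (2 * K) + Real.sqrt (K * (K + 2))) :=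
    le_of_sq_le_sq h5 (by positivity)
  have hpi := Real.pi_pos
  unfold boundConst
  calc d = 2 / Real.pi * (Real.pi / 2 * d) := by field_simp
    _ ≤ 2 / Real.pi * (tupleNorm A B * (Real.sqrt (2 * K) + Real.sqrt (K * (K + 2)))) := by
        gcongr
    _ = _ := by ring

end Pool.Agent.H29.SpecVar
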