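import Mathlib
import Pool.Agent.H29.SpecVar.Match

set_option autoImplicit false

/-!
# Sanity checks for the definitions

Every tuple has a list of joint eigenvalues, and the constants `C_K` are at least `1`.
-/

namespace Pool.Agent.H29.SpecVar

open scoped Function ENNReal

variable {K n : ℕ}

lemma toEuclideanLin_mul_apply (A B : Matrix (Fin n) (Fin n) ℂ) (x : EuclideanSpace ℂ (Fin n)) :
    Matrix.toEuclideanLin (A * B) x = Matrix.toEuclideanLin A (Matrix.toEuclideanLin B x) := by
  simp [Matrix.toLpLin_apply, Matrix.mulVec_mulVec]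

/-- Simultaneous diagonalisation of commuting symmetric operators. -/
theorem exists_joint_basis {E : Type*} [NormedAddCommGroup E] [InnerProductSpace ℂ E]
    [FiniteDimensional ℂ E] (hn : Module.finrank ℂ E = n) (T : Fin K → E →ₗ[ℂ] E)
    (hT : ∀ J, (T J).IsSymmetric) (hC : Pairwise (Commute on T)) :
    ∃ (u : OrthonormalBasis (Fin n) ℂ E) (a : Fin n → Fin K → ℝ),
      ∀ j J, T J (u j) = ((a j J : ℝ) : ℂ) • u j := by
  classical
  let V : (Fin K → ℂ) → Submodule ℂ E := fun γ =>
    ⨅ J, Module.End.eigenspace (T J) (γ J)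
  have hfam : OrthogonalFamily ℂ (fun γ => V γ) (fun γ => (V γ).subtypeₗᵢ) :=
    LinearMap.IsSymmetric.orthogonalFamily_iInf_eigenspaces hT
  have htop : ⨆ γ, V γ = ⊤ := LinearMap.IsSymmetric.iSup_iInf_eq_top_of_commute hT hC
  let b : ∀ γ, OrthonormalBasis (Fin (Module.finrank ℂ (V γ))) ℂ (V γ) := fun γ =>
    stdOrthonormalBasis ℂ (V γ)
  let w : (Σ γ, Fin (Module.finrank ℂ (V γ))) → E := fun a => (b a.1 a.2 : E)
  have hw : Orthonormal ℂ w :=
    hfam.orthonormal_sigma_orthonormal (fun γ => (b γ).orthonormal)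
  have hspan : ⊤ ≤ Submodule.span ℂ (Set.range w) := by
    rw [← htop]
    apply iSup_le
    intro γ x hx
    have h1 : (⟨x, hx⟩ : V γ) ∈ Submodule.span ℂ (Set.range (b γ)) := by
      have := (b γ).toBasis.mem_span ⟨x, hx⟩
      simpa using this
    have h2 := Submodule.apply_mem_span_image_of_mem_span (V γ).subtype h1
    refine Submodule.span_mono ?_ h2
    rintro _ ⟨_, ⟨k, rfl⟩, rfl⟩
    exact ⟨⟨γ, k⟩, rfl⟩
  have hfin : Finite (Σ γ, Fin (Module.finrank ℂ (V γ))) :=
    hw.linearIndependent.finite_of_isNoetherian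
  have hfint : Fintype (Σ γ, Fin (Module.finrank ℂ (V γ))) := Fintype.ofFinite _
  let B := OrthonormalBasis.mk hw hspan
  have hcard : Fintype.card (Σ γ, Fin (Module.finrank ℂ (V γ))) = n := by
    rw [← Module.finrank_eq_card_basis B.toBasis, hn]
  let e : (Σ γ, Fin (Module.finrank ℂ (V γ))) ≃ Fin n := Fintype.equivFinOfCardEq hcard
  refine ⟨B.reindex e, fun j J => ((e.symm j).1 J).re, ?_⟩
  intro j J
  have h1 : (B.reindex e) j = w (e.symm j) := by
    simp [B]
  have h2 : w (e.symm j) ∈ V (e.symm j).1 := (b (e.symm j).1 (e.symm j).2).2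
  have h3 : T J (w (e.symm j)) = (e.symm j).1 J • w (e.symm j) :=
    Module.End.mem_eigenspace_iff.mp ((Submodule.mem_iInf _).mp h2 J)
  have h4 : w (e.symm j) ≠ 0 := hw.ne_zero _
  have h5 : (starRingEnd ℂ) ((e.symm j).1 J) = (e.symm j).1 J := by
    apply (hT J).conj_eigenvalue_eq_self
    exact Module.End.hasEigenvalue_of_hasEigenvector
      ⟨Module.End.mem_eigenspace_iff.mpr h3, h4⟩
  rw [h1, h3, Complex.conj_eq_iff_re.mp h5]

/-- Every tuple has a list of joint eigenvalues. -/
theorem exists_isJointEigenvalues (A : Fin K → Matrix (Fin n) (Fin n) ℂ) (hA : IsTuple A) :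
    ∃ α, IsJointEigenvalues A α := by
  have hT : ∀ J, (Matrix.toEuclideanLin (A J)).IsSymmetric := fun J =>
    Matrix.isSymmetric_toEuclideanLin_iff.mpr (hA.hermitian J)
  have hC : Pairwise (Commute on fun J => Matrix.toEuclideanLin (A J)) := by
    intro I J _
    show Matrix.toEuclideanLin (A I) * Matrix.toEuclideanLin (A J) =
      Matrix.toEuclideanLin (A J) * Matrix.toEuclideanLin (A I)
    apply LinearMap.ext
    intro x
    show Matrix.toEuclideanLin (A I) (Matrix.toEuclideanLin (A J) x) =
      Matrix.toEuclideanLin (A J) (Matrix.toEuclideanLin (A I) x)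
    rw [← toEuclideanLin_mul_apply, ← toEuclideanLin_mul_apply, (hA.commute I J).eq]
  obtain ⟨u, a, h⟩ := exists_joint_basis finrank_euclideanSpace_fin
    (fun J => Matrix.toEuclideanLin (A J)) hT hC
  exact ⟨fun j => WithLp.toLp 2 (a j), isJointEigenvalues_of_basis u h⟩

/-- The constants `C_K` are at least `1`. -/
theorem one_le_specConst (hK : 1 ≤ K) : 1 ≤ specConst K := by
  classical
  apply le_sInf
  intro C hC
  let J0 : Fin K := ⟨0, by omega⟩
  let A : Fin K → Matrix (Fin 1) (Fin 1) ℂ := fun _ => 0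
  let B : Fin K → Matrix (Fin 1) (Fin 1) ℂ := fun J => if J = J0 then 1 else 0
  have hA : IsTuple A := ⟨fun _ => Matrix.isHermitian_zero, fun _ _ => Commute.refl _⟩
  have hB : IsTuple B := by
    constructor
    · intro J
      by_cases h : J = J0
      · simp only [B, if_pos h]; exact Matrix.isHermitian_one
      · simp only [B, if_neg h]; exact Matrix.isHermitian_zero
    · intro I J
      by_cases h : J = J0
      · simp only [B, if_pos h]; exact Commute.one_right _
      · simp only [B, if_neg h]; exact Commute.zero_right _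
  let α : Fin 1 → EuclideanSpace ℝ (Fin K) := fun _ => 0
  let β : Fin 1 → EuclideanSpace ℝ (Fin K) := fun _ => EuclideanSpace.single J0 1
  let u : OrthonormalBasis (Fin 1) ℂ (EuclideanSpace ℂ (Fin 1)) := EuclideanSpace.basisFun _ _
  have hα : IsJointEigenvalues A α := by
    apply isJointEigenvalues_of_basis u
    intro j J
    simp [A, α]
  have hone : Matrix.toEuclideanLin (1 : Matrix (Fin 1) (Fin 1) ℂ) = LinearMap.id := by
    apply LinearMap.ext
    intro x
    simp
  have hβ : IsJointEigenvalues B β := by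
    apply isJointEigenvalues_of_basis u
    intro j J
    by_cases h : J = J0
    · subst h
      simp [B, β, hone]
    · simp [B, β, h]
  have h := hC 1 le_rfl A B hA hB α β hα hβ
  have h1 : matchDist α β = 1 := by
    unfold matchDist
    simp [α, β]
  have h2 : tupleNorm A B ≤ 1 := by
    rw [tupleNorm_eq]
    apply ContinuousLinearMap.opNorm_le_bound _ zero_le_one
    intro x
    rw [one_mul]
    apply le_of_sq_le_sq _ (norm_nonneg _)
    rw [PiLp.norm_sq_eq_of_L2]
    have h3 : ∀ J, ‖diffMap A B x J‖ ^ 2 = if J = J0 then ‖x‖ ^ 2 else 0 := by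
      intro J
      rw [diffMap_apply]
      by_cases h : J = J0
      · simp [A, B, h, hone]
      · simp [A, B, h]
    simp only [h3]
    simp
  rw [h1, ENNReal.ofReal_one] at h
  calc (1 : ℝ≥0∞) ≤ C * ENNReal.ofReal (tupleNorm A B) := h
    _ ≤ C * 1 := by
        gcongr
        rw [← ENNReal.ofReal_one]
        exact ENNReal.ofReal_le_ofReal h2
    _ = C := mul_one C

end Pool.Agent.H29.SpecVar
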